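import Pool.Agent.Run7.h284.PS.Pair

/-!
# Many pairs: averaging over two random families
-/

set_option autoImplicit false

namespace Pool.Agent.H284.PS

open Finset DomAC0 H568R2
open Pool.Agent.W959 Pool.Agent.W959.Ent Pool.Agent.TH457.EntD

/-- the two families have together total size at most `N` -/
def Gd {K n : ℕ} (N : ℕ) (F F' : Fin K → Fin n → Bool) : Prop :=
  ∑ l, (fm F l).card + ∑ l, (fm F' l).card ≤ N

lemma sum_swap {K : ℕ} {A : Type} (f : A → ℕ) (F F' : Fin K → A) (i : Fin K) :
    ∑ l, f (Function.update F i (F' i) l) + ∑ l, f (Function.update F' i (F i) l) =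
      ∑ l, f (F l) + ∑ l, f (F' l) := by
  rw [← Finset.sum_add_distrib, ← Finset.sum_add_distrib]
  apply Finset.sum_congr rfl
  intro l _
  by_cases h : l = i
  · subst h
    simp only [Function.update_self]
    omega
  · rw [Function.update_of_ne h, Function.update_of_ne h]

lemma Gd_swap {K n : ℕ} (N : ℕ) (F F' : Fin K → Fin n → Bool) (i : Fin K) :
    Gd N (Function.update F i (F' i)) (Function.update F' i (F i)) ↔ Gd N F F' := by
  unfold Gd
  rw [show (∑ l, (fm (Function.update F i (F' i)) l).card +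
    ∑ l, (fm (Function.update F' i (F i)) l).card) = ∑ l, (fm F l).card + ∑ l, (fm F' l).card from
    sum_swap (fun x => (Ent.setOf x).card) F F' i]

section

variable {K n w S T m N : ℕ}

lemma mu_nonneg {r : ℝ} (h0 : 0 ≤ r) (h1 : 0 ≤ 1 - r) (n : ℕ) (a : Fin n → Bool) :
    0 ≤ mu r n a := ex_nonneg h0 h1 n fun _ => ind_nonneg _

lemma upd_eq_left {A : Type} (G : Fin K → A) {i j : Fin K} (hij : i ≠ j) (x y x0 : A) :
    Function.update (upd G i j x y) i x0 = upd G i j x0 y := by
  unfold upd
  rw [Function.update_comm hij, Function.update_idem]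
  exact (Function.update_comm hij x0 y G).symm

lemma upd_eq_right {A : Type} (G : Fin K → A) (i j : Fin K) (x y y0 : A) :
    Function.update (upd G i j x y) j y0 = upd G i j x y0 := by
  unfold upd
  rw [Function.update_idem]

/-- one pair: the simulated contents differ from the real ones with constant probability -/
lemma one_pair (hm : 100 * (2 * w * T + 12) ≤ m) (hn : n = m ^ 2)
    {Ω : Type} [Fintype Ω] (p : Ω → ℝ) (hp0 : ∀ ω, 0 ≤ p ω) (hp1 : ∑ ω, p ω = 1)
    (Ψ : Ω → Fin S → (Fin K → Fin n → Bool) → Fin (2 ^ w)) {i j : Fin K} (hij : i ≠ j) (v : Bool)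
    (t : Ω → QTree S (Fin (2 ^ w)) Bool) :
    (366 / 1000 : ℝ) ≤ E2 (mu (1 / (m : ℝ)) n) (fun F F' => ∑ ω, p ω *
      (28 * ind (¬ RightT T v (fun c => simv (Ψ ω c) i j F F') (t ω) (conj (F i) (F j) = zero n)) +
        7 / 1000)) := by
  have hm12 : 1200 ≤ m := le_trans (by omega) hm
  have hm' : (1200 : ℝ) ≤ m := by exact_mod_cast hm12
  have hinv0 : 0 < 1 / (m : ℝ) := by positivity
  have hr1 : 0 ≤ 1 - 1 / (m : ℝ) := by
    have : 1 / (m : ℝ) ≤ 1 := by
      rw [div_le_one (by linarith)]; linarith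
    linarith
  have hμ0 := mu_nonneg hinv0.le hr1 n
  have hμ1 := sum_mu (r := 1 / (m : ℝ)) n
  rw [← Ex_const (I := Fin K) hμ1 (366 / 1000 : ℝ)]
  unfold E2
  apply Ex_mono hμ0
  intro F'
  have h1 := EE_resample (r := 1 / (m : ℝ)) (K := K) (n := n) i j (fun F => ∑ ω, p ω *
      (28 * ind (¬ RightT T v (fun c => simv (Ψ ω c) i j F F') (t ω) (conj (F i) (F j) = zero n)) +
        7 / 1000))
  have h2 : (366 / 1000 : ℝ) ≤ EE (1 / (m : ℝ)) K n (fun F => ∑ ω, p ω *
      (28 * ind (¬ RightT T v (fun c => simv (Ψ ω c) i j F F') (t ω) (conj (F i) (F j) = zero n)) +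
        7 / 1000)) := by
    rw [h1, ← EE_const (r := 1 / (m : ℝ)) (K := K) (n := n) (366 / 1000)]
    apply EE_mono hinv0.le hr1
    intro G
    rw [ex2_sum]
    calc (366 / 1000 : ℝ) = ∑ ω, p ω * (366 / 1000) := by rw [← Finset.sum_mul, hp1, one_mul]
      _ ≤ _ := by
        apply Finset.sum_le_sum
        intro ω _
        rw [ex2_mul]
        apply mul_le_mul_of_nonneg_left _ (hp0 ω)
        rw [ex2_add, ex2_mul, ex2_const]
        have h3 := pair_sim hm hn (fun c x y => Ψ ω c (upd G i j x y)) (F' i) (F' j)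
          (fun c x y => simv (Ψ ω c) i j (upd G i j x y) F')
          (by
            intro c x y
            unfold simv
            rw [upd_eq_right, upd_eq_left G hij, upd_eq_right]
            split_ifs <;> rfl) (t ω) v
        have h4 : ∀ x y, conj (upd G i j x y i) (upd G i j x y j) = conj x y := by
          intro x y
          rw [upd_left G hij, upd_right]
        simp only [h4]
        exact h3
  exact h2

lemma big_prob (hm : 1200 ≤ m) (hn : n = m ^ 2) (hN : 2000 * (K * m) ≤ N) (hK : 0 < K) :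
    E2 (mu (1 / (m : ℝ)) n) (fun F F' : Fin K → Fin n → Bool => ind (¬ Gd N F F')) ≤ 1 / 1000 := by
  have hm' : (1200 : ℝ) ≤ m := by exact_mod_cast hm
  have hinv0 : 0 < 1 / (m : ℝ) := by positivity
  have hr1 : 0 ≤ 1 - 1 / (m : ℝ) := by
    have : 1 / (m : ℝ) ≤ 1 := by
      rw [div_le_one (by linarith)]; linarith
    linarith
  have hμ0 := mu_nonneg hinv0.le hr1 n
  have hμ1 := sum_mu (r := 1 / (m : ℝ)) n
  have hN0 : 0 < N := lt_of_lt_of_le (by positivity) hN
  have hN0' : (0 : ℝ) < N := by exact_mod_cast hN0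
  have hN' : 2000 * ((K : ℝ) * m) ≤ N := by exact_mod_cast hN
  have h1 : E2 (mu (1 / (m : ℝ)) n) (fun F F' : Fin K → Fin n → Bool => ind (¬ Gd N F F')) ≤
      E2 (mu (1 / (m : ℝ)) n) (fun F F' : Fin K → Fin n → Bool =>
        1 / N * ((∑ l, ((fm F l).card : ℝ)) + ∑ l, ((fm F' l).card : ℝ))) := by
    apply E2_mono hμ0
    intro F F'
    have h0 : (0 : ℝ) ≤ ∑ l, ((fm F l).card : ℝ) := Finset.sum_nonneg fun l _ => Nat.cast_nonneg _
    have h0' : (0 : ℝ) ≤ ∑ l, ((fm F' l).card : ℝ) :=
      Finset.sum_nonneg fun l _ => Nat.cast_nonneg _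
    by_cases h : Gd N F F'
    · rw [ind_false (not_not.2 h)]
      positivity
    · rw [ind_true h]
      have h2 : N < ∑ l, (fm F l).card + ∑ l, (fm F' l).card := not_le.1 h
      have h3 : (N : ℝ) ≤ (∑ l, ((fm F l).card : ℝ)) + ∑ l, ((fm F' l).card : ℝ) := by
        exact_mod_cast h2.le
      rw [one_div, inv_mul_eq_div, le_div_iff₀ hN0', one_mul]
      exact h3
  refine h1.trans ?_
  rw [E2_smul, E2_add, E2_left hμ1, E2_right hμ1]
  have h2 : Ex (mu (1 / (m : ℝ)) n) (fun G : Fin K → Fin n → Bool =>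
      ∑ l, ((fm G l).card : ℝ)) = K * m := by
    have h3 := EE_size (r := 1 / (m : ℝ)) (K := K) (n := n)
    have h4 : (K : ℝ) * (n * (1 / (m : ℝ))) = K * m := by
      rw [hn]
      push_cast
      field_simp
    rw [h4] at h3
    exact h3
  rw [h2, one_div, inv_mul_eq_div, div_le_iff₀ hN0']
  linarith

/-- **Main lemma.** A random data structure which decides with at most `T` probes and with error at
most `1 / 100`, for all families of total size at most `N`, for every pair in `I` whether its two
sets are disjoint, has expected total pair sensitivity at least `|I| / 1700`. -/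
theorem sens_average (hm : 100 * (2 * w * T + 12) ≤ m) (hn : n = m ^ 2)
    (hN : 2000 * (K * m) ≤ N) {Ω : Type} [Fintype Ω] (p : Ω → ℝ) (hp0 : ∀ ω, 0 ≤ p ω)
    (hp1 : ∑ ω, p ω = 1) (Φ : Ω → Fin S → (Fin K → Finset (Fin n)) → Fin (2 ^ w))
    (I : Finset (Fin K × Fin K)) (hI : ∀ e ∈ I, e.1 ≠ e.2) (v : Bool)
    (t : Ω → Fin K × Fin K → QTree S (Fin (2 ^ w)) Bool)
    (hgood : ∀ e ∈ I, ∀ F : Fin K → Finset (Fin n), ∑ l, (F l).card ≤ N → 99 / 100 ≤
      ∑ ω, open Classical in
        if RightT T v (fun c => Φ ω c F) (t ω e) (Disjoint (F e.1) (F e.2)) then p ω else 0)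
    (R : ℝ) (hR : E2 (mu (1 / (m : ℝ)) n) (fun F F' => ind (Gd N F F') * ∑ ω, p ω *
      ∑ e ∈ I, ∑ c ∈ cells (t ω e), ind (BS (fun G => Φ ω c (fm G)) e.1 e.2 F F')) ≤ R) :
    (I.card : ℝ) ≤ 1700 * R := by
  classical
  have hm12 : 1200 ≤ m := le_trans (by omega) hm
  have hm' : (1200 : ℝ) ≤ m := by exact_mod_cast hm12
  have hinv0 : 0 < 1 / (m : ℝ) := by positivity
  have hr1 : 0 ≤ 1 - 1 / (m : ℝ) := by
    have : 1 / (m : ℝ) ≤ 1 := by
      rw [div_le_one (by linarith)]; linarith
    linarith
  have hμ0 := mu_nonneg hinv0.le hr1 n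
  have hμ1 := sum_mu (r := 1 / (m : ℝ)) n
  have hR0 : 0 ≤ R := by
    refine le_trans ?_ hR
    unfold E2
    apply Ex_nonneg hμ0
    intro F'
    apply Ex_nonneg hμ0
    intro F
    apply mul_nonneg (ind_nonneg _)
    exact Finset.sum_nonneg fun ω _ => mul_nonneg (hp0 ω) (Finset.sum_nonneg fun e _ =>
      Finset.sum_nonneg fun c _ => ind_nonneg _)
  rcases Nat.eq_zero_or_pos K with hK | hK
  · subst hK
    have : I = ∅ := Finset.eq_empty_of_isEmpty I
    rw [this, Finset.card_empty, Nat.cast_zero]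
    linarith
  have hbig := big_prob (K := K) (n := n) hm12 hn hN hK
  -- the failures
  obtain ⟨X, hX⟩ : ∃ X : Fin K × Fin K → ℝ, X = fun e => E2 (mu (1 / (m : ℝ)) n)
      (fun F F' : Fin K → Fin n → Bool => ind (Gd N F F') * ∑ ω, p ω * ∑ c ∈ cells (t ω e),
        ind (simv (fun G => Φ ω c (fm G)) e.1 e.2 F F' ≠ Φ ω c (fm F))) := ⟨_, rfl⟩
  obtain ⟨Y, hY⟩ : ∃ Y : Fin K × Fin K → ℝ, Y = fun e => E2 (mu (1 / (m : ℝ)) n)
      (fun F F' : Fin K → Fin n → Bool => ind (Gd N F F') * ∑ ω, p ω * ∑ c ∈ cells (t ω e),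
        ind (BS (fun G => Φ ω c (fm G)) e.1 e.2 F F')) := ⟨_, rfl⟩
  have hXl : ∀ e ∈ I, (18 / 10000 : ℝ) ≤ X e := by
    intro e he
    have h1 := one_pair hm hn p hp0 hp1 (fun ω c G => Φ ω c (fm G)) (hI e he) v
      (fun ω => t ω e)
    have h2 : E2 (mu (1 / (m : ℝ)) n) (fun F F' : Fin K → Fin n → Bool => ∑ ω, p ω *
      (28 * ind (¬ RightT T v (fun c => simv (fun G => Φ ω c (fm G)) e.1 e.2 F F') (t ω e)
        (conj (F e.1) (F e.2) = zero n)) + 7 / 1000)) ≤
        E2 (mu (1 / (m : ℝ)) n) (fun F F' : Fin K → Fin n → Bool =>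
          287 / 1000 + (28 * ind (¬ Gd N F F') + 28 * (ind (Gd N F F') *
            ∑ ω, p ω * ∑ c ∈ cells (t ω e),
              ind (simv (fun G => Φ ω c (fm G)) e.1 e.2 F F' ≠ Φ ω c (fm F))))) := by
      apply E2_mono hμ0
      intro F F'
      by_cases hG : Gd N F F'
      · rw [ind_true hG, ind_false (not_not.2 hG), mul_zero, zero_add, one_mul]
        have hsz : ∑ l, (fm F l).card ≤ N := le_trans (Nat.le_add_right _ _) hG
        have h3 : ∀ ω, ind (¬ RightT T v (fun c => simv (fun G => Φ ω c (fm G)) e.1 e.2 F F')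
            (t ω e) (conj (F e.1) (F e.2) = zero n)) ≤
            ind (¬ RightT T v (fun c => Φ ω c (fm F)) (t ω e)
              (Disjoint (fm F e.1) (fm F e.2))) +
            ∑ c ∈ cells (t ω e),
              ind (simv (fun G => Φ ω c (fm G)) e.1 e.2 F F' ≠ Φ ω c (fm F)) := by
          intro ω
          have hs0 : 0 ≤ ∑ c ∈ cells (t ω e),
              ind (simv (fun G => Φ ω c (fm G)) e.1 e.2 F F' ≠ Φ ω c (fm F)) :=
            Finset.sum_nonneg fun c _ => ind_nonneg _
          by_cases h4 : ∃ c ∈ cells (t ω e),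
              simv (fun G => Φ ω c (fm G)) e.1 e.2 F F' ≠ Φ ω c (fm F)
          · obtain ⟨c, hc, h5⟩ := h4
            have h6 := Finset.single_le_sum (f := fun c =>
              ind (simv (fun G => Φ ω c (fm G)) e.1 e.2 F F' ≠ Φ ω c (fm F)))
              (fun c _ => ind_nonneg _) hc
            rw [ind_true h5] at h6
            have h7 := ind_le_one (¬ RightT T v
              (fun c => simv (fun G => Φ ω c (fm G)) e.1 e.2 F F')
              (t ω e) (conj (F e.1) (F e.2) = zero n))
            have h8 := ind_nonneg (¬ RightT T v (fun c => Φ ω c (fm F)) (t ω e)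
              (Disjoint (fm F e.1) (fm F e.2)))
            linarith
          · push Not at h4
            have h5 := run_congr (t ω e) h4
            have h6 : RightT T v (fun c => simv (fun G => Φ ω c (fm G)) e.1 e.2 F F')
                (t ω e) (conj (F e.1) (F e.2) = zero n) ↔
                RightT T v (fun c => Φ ω c (fm F)) (t ω e)
                  (Disjoint (fm F e.1) (fm F e.2)) := by
              unfold RightT
              rw [h5.1, h5.2, TH457.EntD.disjoint_iff]
            have h7 : ind (¬ RightT T v (fun c => simv (fun G => Φ ω c (fm G)) e.1 e.2 F F')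
                (t ω e) (conj (F e.1) (F e.2) = zero n)) ≤
                ind (¬ RightT T v (fun c => Φ ω c (fm F)) (t ω e)
                  (Disjoint (fm F e.1) (fm F e.2))) := ind_mono fun h => fun h' => h (h6.2 h')
            linarith
        have h4 := sum_ind_not p hp1 (fun ω => RightT T v (fun c => Φ ω c (fm F)) (t ω e)
          (Disjoint (fm F e.1) (fm F e.2))) (by
            refine (hgood e he (fm F) hsz).trans (le_of_eq ?_)
            apply Finset.sum_congr rfl
            intro ω _
            congr)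
        calc _ ≤ ∑ ω, p ω * (28 * (ind (¬ RightT T v (fun c => Φ ω c (fm F)) (t ω e)
              (Disjoint (fm F e.1) (fm F e.2))) +
            ∑ c ∈ cells (t ω e),
              ind (simv (fun G => Φ ω c (fm G)) e.1 e.2 F F' ≠ Φ ω c (fm F))) + 7 / 1000) := by
              apply Finset.sum_le_sum
              intro ω _
              apply mul_le_mul_of_nonneg_left _ (hp0 ω)
              have := h3 ω
              linarith
          _ = 28 * (∑ ω, p ω * ind (¬ RightT T v (fun c => Φ ω c (fm F)) (t ω e)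
              (Disjoint (fm F e.1) (fm F e.2)))) + 28 * (∑ ω, p ω * ∑ c ∈ cells (t ω e),
              ind (simv (fun G => Φ ω c (fm G)) e.1 e.2 F F' ≠ Φ ω c (fm F))) +
              (∑ ω, p ω) * (7 / 1000) := by
              rw [Finset.mul_sum, Finset.mul_sum, Finset.sum_mul, ← Finset.sum_add_distrib,
                ← Finset.sum_add_distrib]
              apply Finset.sum_congr rfl
              intro ω _
              ring
          _ ≤ _ := by
              rw [hp1]
              linarith
      · rw [ind_false hG, ind_true hG, zero_mul, mul_zero, add_zero, mul_one]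
        calc _ ≤ ∑ ω, p ω * (28 * 1 + 7 / 1000) := by
              apply Finset.sum_le_sum
              intro ω _
              apply mul_le_mul_of_nonneg_left _ (hp0 ω)
              have := ind_le_one (¬ RightT T v
                (fun c => simv (fun G => Φ ω c (fm G)) e.1 e.2 F F')
                (t ω e) (conj (F e.1) (F e.2) = zero n))
              linarith
          _ = (∑ ω, p ω) * (28 * 1 + 7 / 1000) := by rw [Finset.sum_mul]
          _ ≤ _ := by
              rw [hp1]
              norm_num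
    rw [E2_add, E2_const hμ1, E2_add, E2_smul, E2_smul] at h2
    have h3 : E2 (mu (1 / (m : ℝ)) n) (fun F F' : Fin K → Fin n → Bool => ind (Gd N F F') *
            ∑ ω, p ω * ∑ c ∈ cells (t ω e),
              ind (simv (fun G => Φ ω c (fm G)) e.1 e.2 F F' ≠ Φ ω c (fm F))) = X e := by
      rw [hX]
    rw [h3] at h2
    linarith
  have hXu : ∀ e ∈ I, X e ≤ 3 * Y e := by
    intro e he
    have hH : ∀ i : Fin K, E2 (mu (1 / (m : ℝ)) n) (fun F F' : Fin K → Fin n → Bool =>
        ind (Gd N F F') * ∑ ω, p ω * ∑ c ∈ cells (t ω e),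
          ind (BS (fun G => Φ ω c (fm G)) e.1 e.2 (Function.update F i (F' i))
            (Function.update F' i (F i)))) = Y e := by
      intro i
      rw [hY]
      simp only []
      rw [← E2_swap i (fun F F' : Fin K → Fin n → Bool => ind (Gd N F F') *
        ∑ ω, p ω * ∑ c ∈ cells (t ω e), ind (BS (fun G => Φ ω c (fm G)) e.1 e.2 F F'))]
      simp only [Gd_swap]
    have h1 : X e ≤ E2 (mu (1 / (m : ℝ)) n) (fun F F' : Fin K → Fin n → Bool =>
        ind (Gd N F F') * ∑ ω, p ω * ∑ c ∈ cells (t ω e),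
          ind (BS (fun G => Φ ω c (fm G)) e.1 e.2 F F') +
        (ind (Gd N F F') * ∑ ω, p ω * ∑ c ∈ cells (t ω e),
          ind (BS (fun G => Φ ω c (fm G)) e.1 e.2 (Function.update F e.1 (F' e.1))
            (Function.update F' e.1 (F e.1))) +
        ind (Gd N F F') * ∑ ω, p ω * ∑ c ∈ cells (t ω e),
          ind (BS (fun G => Φ ω c (fm G)) e.1 e.2 (Function.update F e.2 (F' e.2))
            (Function.update F' e.2 (F e.2))))) := by
      rw [hX]
      apply E2_mono hμ0
      intro F F'
      rw [← mul_add, ← mul_add]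
      apply mul_le_mul_of_nonneg_left _ (ind_nonneg _)
      rw [← Finset.sum_add_distrib, ← Finset.sum_add_distrib]
      apply Finset.sum_le_sum
      intro ω _
      rw [← mul_add, ← mul_add]
      apply mul_le_mul_of_nonneg_left _ (hp0 ω)
      rw [← Finset.sum_add_distrib, ← Finset.sum_add_distrib]
      apply Finset.sum_le_sum
      intro c _
      have i1 := ind_nonneg (BS (fun G => Φ ω c (fm G)) e.1 e.2 F F')
      have i2 := ind_nonneg (BS (fun G => Φ ω c (fm G)) e.1 e.2 (Function.update F e.1 (F' e.1))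
            (Function.update F' e.1 (F e.1)))
      have i3 := ind_nonneg (BS (fun G => Φ ω c (fm G)) e.1 e.2 (Function.update F e.2 (F' e.2))
            (Function.update F' e.2 (F e.2)))
      by_cases h2 : simv (fun G => Φ ω c (fm G)) e.1 e.2 F F' ≠ Φ ω c (fm F)
      · rw [ind_true h2]
        rcases simv_fail (hI e he) h2 with h3 | h3 | h3
        · rw [ind_true h3]
          linarith
        · rw [ind_true h3]
          linarith
        · rw [ind_true h3]
          linarith
      · rw [ind_false h2]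
        linarith
    rw [E2_add, E2_add, hH e.1, hH e.2] at h1
    have h2 : E2 (mu (1 / (m : ℝ)) n) (fun F F' : Fin K → Fin n → Bool =>
        ind (Gd N F F') * ∑ ω, p ω * ∑ c ∈ cells (t ω e),
          ind (BS (fun G => Φ ω c (fm G)) e.1 e.2 F F')) = Y e := by rw [hY]
    rw [h2] at h1
    linarith
  have hYR : ∑ e ∈ I, Y e ≤ R := by
    refine le_trans (le_of_eq ?_) hR
    rw [hY, ← E2_sum]
    congr 1
    funext F F'
    rw [← Finset.mul_sum]
    congr 1
    rw [Finset.sum_comm]
    apply Finset.sum_congr rfl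
    intro ω _
    rw [Finset.mul_sum]
  have h1 := Finset.card_nsmul_le_sum I X _ hXl
  rw [nsmul_eq_mul] at h1
  have h2 := Finset.sum_le_sum hXu
  rw [← Finset.mul_sum] at h2
  linarith

end

end Pool.Agent.H284.PS
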