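import Pool.Agent.Run7.h284.PS.Sens

/-!
# Circuits of bounded depth whose inputs are functions of single bits: random restrictions and the
second moment of the sensitivity
-/

set_option autoImplicit false

namespace Pool.Agent.H284.PS

open Finset DomAC0 H568R2 Pool.Agent.TH163.AC3

variable {I : Type} [Fintype I] [DecidableEq I] {J : Type}

/-- all gates of depth at most `j` have shallow decision trees under `ρ` -/
def Shal (C : Circuit J) (σ : (I → Bool) → (J → Bool)) (s j : ℕ) (ρ : Restr I) : Prop :=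
  ∀ g : Fin C.size, C.gateDepth g ≤ j → HasDT s (rs (fun x => C.gateVal (σ x) g) ρ)

/-- every input is a function of one bit -/
def Single (σ : (I → Bool) → (J → Bool)) : Prop :=
  ∀ j, ∃ (i : I) (b : Bool → Bool), ∀ x, σ x j = b (x i)

omit [Fintype I] in
lemma node_dt' (C : Circuit J) {σ : (I → Bool) → (J → Bool)} (hσ : Single σ) {s j : ℕ}
    (hs : 1 ≤ s) {ρ : Restr I} (hG : Shal C σ s j ρ) (v : J ⊕ Fin C.size)
    (hv : C.nodeDepth v ≤ j) : HasDT s (rs (fun x => C.nodeVal (σ x) v) ρ) := by
  cases v with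
  | inl k =>
    obtain ⟨i, b, hb⟩ := hσ k
    cases hρ : ρ i with
    | none =>
      refine ⟨TH163.AC3.Tree.node i (TH163.AC3.Tree.leaf (b false))
        (TH163.AC3.Tree.leaf (b true)), ?_, ?_⟩
      · unfold TH163.AC3.Tree.depth
        simp only [TH163.AC3.Tree.depth]
        omega
      · intro x
        have h1 : rs (fun x => C.nodeVal (σ x) (Sum.inl k)) ρ x = b (x i) := by
          show σ (ov ρ x) k = b (x i)
          rw [hb]
          unfold ov
          rw [hρ]
          rfl
        rw [h1]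
        unfold TH163.AC3.Tree.eval
        rcases hx : x i with _ | _
        · simp [TH163.AC3.Tree.eval]
        · simp [TH163.AC3.Tree.eval]
    | some a =>
      apply hasDT_const (b a)
      intro x
      show σ (ov ρ x) k = b a
      rw [hb]
      unfold ov
      rw [hρ]
      rfl
  | inr g => exact hG g hv

omit [Fintype I] in
lemma gate_cert'' (C : Circuit J) (σ : (I → Bool) → (J → Bool)) {K : ℕ} {ρ : Restr I}
    (g : Fin C.size) (Q : List (J ⊕ Fin C.size))
    (hQ : ∀ v ∈ Q, HasDT K (rs (fun x => C.nodeVal (σ x) v) ρ)) :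
    ∃ b, Cert K b (rs (fun x => gfun C g (σ x) Q) ρ) := by
  cases hg : C.kind g with
  | and =>
    refine ⟨false, ?_⟩
    intro x hx
    simp only [rs, gfun, hg, decide_eq_false_iff_not, not_forall] at hx
    obtain ⟨v, hvQ, hv⟩ := hx
    have hv' : rs (fun x => C.nodeVal (σ x) v) ρ x = false := by
      show C.nodeVal (σ (ov ρ x)) v = false
      simpa using hv
    obtain ⟨A, hA, hy⟩ := (hQ v hvQ).cert false x hv'
    refine ⟨A, hA, fun y hxy => ?_⟩
    simp only [rs, gfun, hg, decide_eq_false_iff_not, not_forall]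
    exact ⟨v, hvQ, by have := hy y hxy; simpa [rs] using this⟩
  | or =>
    refine ⟨true, ?_⟩
    intro x hx
    simp only [rs, gfun, hg, decide_eq_true_eq] at hx
    obtain ⟨v, hvQ, hv⟩ := hx
    obtain ⟨A, hA, hy⟩ := (hQ v hvQ).cert true x hv
    refine ⟨A, hA, fun y hxy => ?_⟩
    simp only [rs, gfun, hg, decide_eq_true_eq]
    exact ⟨v, hvQ, hy y hxy⟩
  | not =>
    refine ⟨false, ?_⟩
    intro x hx
    simp only [rs, gfun, hg, decide_eq_false_iff_not, not_forall] at hx
    obtain ⟨v, hvQ, hv⟩ := hx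
    have hv' : rs (fun x => C.nodeVal (σ x) v) ρ x = true := by
      show C.nodeVal (σ (ov ρ x)) v = true
      simpa using hv
    obtain ⟨A, hA, hy⟩ := (hQ v hvQ).cert true x hv'
    refine ⟨A, hA, fun y hxy => ?_⟩
    simp only [rs, gfun, hg, decide_eq_false_iff_not, not_forall]
    exact ⟨v, hvQ, by have := hy y hxy; simpa [rs] using this⟩

open Classical in
theorem coll (C : Circuit J) {σ : (I → Bool) → (J → Bool)} (hσ : Single σ) {q : ℝ} (h0 : 0 ≤ q)
    (h1 : q ≤ 1 / 3) {s : ℕ} (hs : 1 ≤ s) :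
    ∀ j : ℕ, Ex (wq (q ^ j)) (fun ρ : Restr I => if ¬ Shal C σ s j ρ then (1 : ℝ) else 0) ≤
      j * C.size * (12 * s * q) ^ (s + 1) := by
  intro j
  induction j with
  | zero =>
    have hgood : ∀ ρ : Restr I, Shal C σ s 0 ρ := by
      intro ρ g hg
      have : 0 < C.gateDepth g := by rw [Circuit.gateDepth]; omega
      omega
    simp only [hgood, not_true, if_false]
    unfold Ex
    simp
  | succ j ih =>
    rw [pow_succ, wq_cmp]
    set ε : ℝ := (12 * s * q) ^ (s + 1) with hε
    have hε0 : 0 ≤ ε := by positivity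
    have hwj : ∀ a, 0 ≤ wq (q ^ j) a :=
      wq_nonneg (pow_nonneg h0 j) (pow_le_one₀ h0 (by linarith))
    have hw1 : ∀ a, 0 ≤ wq q a := wq_nonneg h0 (by linarith)
    have hin : ∀ ρ : Restr I, Ex (wq q) (fun τ : Restr I =>
        if ¬ Shal C σ s (j + 1) (cmp ρ τ) then (1 : ℝ) else 0) ≤
        (if ¬ Shal C σ s j ρ then (1 : ℝ) else 0) + C.size * ε := by
      intro ρ
      by_cases hG : Shal C σ s j ρ
      · simp only [hG, not_true, if_false, zero_add]
        have hpt : ∀ τ : Restr I, (if ¬ Shal C σ s (j + 1) (cmp ρ τ) then (1 : ℝ) else 0) ≤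
            ∑ g ∈ univ.filter (fun g : Fin C.size => C.gateDepth g ≤ j + 1),
              (if ¬ HasDT s (rs (rs (fun x => C.gateVal (σ x) g) ρ) τ) then (1 : ℝ) else 0) := by
          intro τ
          have hnn : ∀ g ∈ univ.filter (fun g : Fin C.size => C.gateDepth g ≤ j + 1),
              (0 : ℝ) ≤ (if ¬ HasDT s (rs (rs (fun x => C.gateVal (σ x) g) ρ) τ)
                then (1 : ℝ) else 0) := by
            intro g _
            split_ifs <;> norm_num
          by_cases hGG : Shal C σ s (j + 1) (cmp ρ τ)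
          · simp only [hGG, not_true, if_false]
            exact Finset.sum_nonneg hnn
          · simp only [hGG, not_false_iff, if_true]
            have hex : ∃ g : Fin C.size, C.gateDepth g ≤ j + 1 ∧
                ¬ HasDT s (rs (fun x => C.gateVal (σ x) g) (cmp ρ τ)) := by
              by_contra hcon
              apply hGG
              intro g hg
              by_contra hJ
              exact hcon ⟨g, hg, hJ⟩
            obtain ⟨g, hg, hJ⟩ := hex
            rw [rs_cmp] at hJ
            refine le_trans ?_ (Finset.single_le_sum hnn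
              (Finset.mem_filter.2 ⟨Finset.mem_univ g, hg⟩))
            rw [if_pos hJ]
        refine (Ex_mono hw1 hpt).trans ?_
        rw [Ex_sum]
        have hterm : ∀ g ∈ univ.filter (fun g : Fin C.size => C.gateDepth g ≤ j + 1),
            Ex (wq q) (fun τ : Restr I => (if ¬ HasDT s
                (rs (rs (fun x => C.gateVal (σ x) g) ρ) τ) then (1 : ℝ) else 0)) ≤ ε := by
          intro g hgi
          have hgd : C.gateDepth g ≤ j + 1 := (Finset.mem_filter.1 hgi).2
          obtain ⟨b, hb⟩ := gate_cert'' C σ (K := s) (ρ := ρ) g (C.preds g).toList (by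
            intro v hv
            apply node_dt' C hσ hs hG
            have hvp : v ∈ C.preds g := by
              rwa [Finset.mem_toList] at hv
            have := depth_lt C g v hvp
            omega)
          have h2 : (fun x => C.gateVal (σ x) g) = fun x => gfun C g (σ x) (C.preds g).toList := by
            funext x
            exact gateVal_eq C (σ x) g
          rw [← h2] at hb
          exact switching' h0 h1 hb
        refine (Finset.sum_le_card_nsmul _ _ _ hterm).trans ?_
        rw [nsmul_eq_mul]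
        apply mul_le_mul_of_nonneg_right _ hε0
        have : (univ.filter (fun g : Fin C.size => C.gateDepth g ≤ j + 1)).card ≤ C.size := by
          refine (Finset.card_le_univ _).trans ?_
          simp
        exact_mod_cast this
      · simp only [hG, not_false_iff, if_true]
        have h2 : Ex (wq q) (fun τ : Restr I =>
            if ¬ Shal C σ s (j + 1) (cmp ρ τ) then (1 : ℝ) else 0) ≤
            Ex (wq q) (fun _ : Restr I => (1 : ℝ)) := by
          apply Ex_mono hw1
          intro τ
          split_ifs <;> norm_num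
        rw [Ex_const (wq_sum q)] at h2
        have : 0 ≤ C.size * ε := by positivity
        linarith
    refine (Ex_mono hwj hin).trans ?_
    rw [Ex_add, Ex_const (wq_sum (q ^ j))]
    push_cast at ih ⊢
    linarith

/-- **The second moment of the sensitivity of a circuit of bounded depth.** -/
theorem circuit_moment (C : Circuit J) {σ : (I → Bool) → (J → Bool)} (hσ : Single σ) {d κ : ℕ}
    (hI : Fintype.card I ≤ 2 ^ κ) (hsize : C.size ≤ 2 ^ κ) (hdepth : C.depth ≤ d) :
    Ex uw (fun z : I → Bool => (SS (fun x => C.eval (σ x)) z : ℝ) ^ 2) ≤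
      (72 * κ + 24 * d + 24 : ℝ) ^ (2 * d + 2) := by
  classical
  obtain ⟨s, hs⟩ : ∃ s : ℕ, s = 3 * κ + d + 1 := ⟨_, rfl⟩
  have hs1 : 1 ≤ s := by omega
  have hs0 : (0 : ℝ) < s := by exact_mod_cast hs1
  obtain ⟨q, hq⟩ : ∃ q : ℝ, q = 1 / (24 * s) := ⟨_, rfl⟩
  have hq0 : 0 < q := by rw [hq]; positivity
  have hq1 : q ≤ 1 / 3 := by
    rw [hq]
    apply one_div_le_one_div_of_le (by norm_num)
    have : (1 : ℝ) ≤ s := by exact_mod_cast hs1
    linarith
  have hqd0 : 0 < q ^ d := by positivity
  have hqd1 : q ^ d ≤ 1 := pow_le_one₀ hq0.le (by linarith)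
  have h1 := moment hqd0.le hqd1 (fun x => C.eval (σ x)) s
  have h2 := coll C hσ hq0.le hq1 hs1 d
  have h3 : Ex (wq (q ^ d)) (fun ρ : Restr I =>
      if ¬ HasDT s (rs (fun x => C.eval (σ x)) ρ) then (1 : ℝ) else 0) ≤
      Ex (wq (q ^ d)) (fun ρ : Restr I => if ¬ Shal C σ s d ρ then (1 : ℝ) else 0) := by
    apply Ex_mono (wq_nonneg hqd0.le hqd1)
    intro ρ
    by_cases h : Shal C σ s d ρ
    · have h4 : HasDT s (rs (fun x => C.eval (σ x)) ρ) := node_dt' C hσ hs1 h C.output hdepth
      simp only [h, h4, not_true, if_false, le_refl]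
    · simp only [h, not_false_eq_true, if_true]
      split_ifs <;> norm_num
  have h5 : 12 * (s : ℝ) * q = 1 / 2 := by
    rw [hq]
    field_simp
    norm_num
  rw [h5] at h2
  have h6 : (Fintype.card I : ℝ) ^ 2 * (d * C.size * (1 / 2) ^ (s + 1)) ≤ 1 := by
    have a1 : (Fintype.card I : ℝ) ≤ 2 ^ κ := by exact_mod_cast hI
    have a2 : (C.size : ℝ) ≤ 2 ^ κ := by exact_mod_cast hsize
    have a3 : (d : ℝ) ≤ 2 ^ d := by exact_mod_cast (Nat.lt_two_pow_self (n := d)).le
    have a4 : (Fintype.card I : ℝ) ^ 2 ≤ (2 ^ κ) ^ 2 := pow_le_pow_left₀ (Nat.cast_nonneg _) a1 2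
    calc (Fintype.card I : ℝ) ^ 2 * (d * C.size * (1 / 2) ^ (s + 1)) ≤
          (2 ^ κ) ^ 2 * (2 ^ d * 2 ^ κ * (1 / 2) ^ (s + 1)) := by
          apply mul_le_mul a4 _ (by positivity) (by positivity)
          apply mul_le_mul_of_nonneg_right _ (by positivity)
          exact mul_le_mul a3 a2 (Nat.cast_nonneg _) (by positivity)
      _ = (2 : ℝ) ^ (3 * κ + d) * (1 / 2) ^ (3 * κ + d) * (1 / 2) ^ 2 := by
          rw [hs, ← pow_mul, ← mul_assoc, ← mul_assoc, ← pow_add, ← pow_add, mul_assoc, ← pow_add]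
          congr 1
          congr 1
          ring
      _ ≤ 1 := by
          rw [← mul_pow]
          norm_num
  have h7 : (q ^ d) ^ 2 * Ex uw (fun z : I → Bool => (SS (fun x => C.eval (σ x)) z : ℝ) ^ 2) ≤
      (s : ℝ) ^ 2 + 1 := by
    refine h1.trans ?_
    have h8 := mul_le_mul_of_nonneg_left (h3.trans h2)
      (show (0 : ℝ) ≤ (Fintype.card I : ℝ) ^ 2 by positivity)
    have h9 := h8.trans h6
    have h10 : (Fintype.card I : ℝ) ^ 2 * Ex (wq (q ^ d)) (fun ρ : Restr I =>
        if ¬ HasDT s (rs (fun x => C.eval (σ x)) ρ) then (1 : ℝ) else 0) ≤ 1 := h9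
    have h11 : (Fintype.card I : ℝ) ^ 2 * Ex (wq (q ^ d)) (fun ρ : Restr I =>
        open Classical in if ¬ HasDT s (rs (fun x => C.eval (σ x)) ρ) then (1 : ℝ) else 0) ≤ 1 := by
      convert h10
    linarith
  have h8 : (24 * s : ℝ) = 72 * κ + 24 * d + 24 := by
    rw [hs]
    push_cast
    ring
  rw [← h8]
  have h9 : (q ^ d) ^ 2 * (24 * s : ℝ) ^ (2 * d) = 1 := by
    rw [← pow_mul, mul_comm d 2, ← mul_pow, hq]
    have : 1 / (24 * (s : ℝ)) * (24 * s) = 1 := by field_simp
    rw [this, one_pow]
  have h10 : Ex uw (fun z : I → Bool => (SS (fun x => C.eval (σ x)) z : ℝ) ^ 2) =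
      (24 * s : ℝ) ^ (2 * d) * ((q ^ d) ^ 2 *
        Ex uw (fun z : I → Bool => (SS (fun x => C.eval (σ x)) z : ℝ) ^ 2)) := by
    rw [← mul_assoc, mul_comm ((24 * s : ℝ) ^ (2 * d)), h9, one_mul]
  rw [h10, pow_add]
  apply mul_le_mul_of_nonneg_left _ (by positivity)
  refine h7.trans ?_
  have : (1 : ℝ) ≤ s := by exact_mod_cast hs1
  nlinarith

end Pool.Agent.H284.PS
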