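import Pool.Agent.Run7.h284.PS.Halves
import Pool.Agent.W959.EntFinal

/-!
# Lists of intersections: procedures which deviate from simulated contents at few places
-/

set_option autoImplicit false

namespace Pool.Agent.H284.PS

open Finset DomAC0 H568R2
open Pool.Agent.W959 Pool.Agent.W959.Ent

/-- There is a path of the tree with at most `d` probes which follows the contents `g`, except for at
most `a` probes, and ends with the right list, which has at most `n - Nz` elements. -/
def Dev {n w S : ℕ} (Nz : ℕ) (g : Fin S → (Fin n → Bool) → (Fin n → Bool) → Fin (2 ^ w)) :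
    QTree S (Fin (2 ^ w)) (Finset (Fin n)) → ℕ → ℕ → (Fin n → Bool) → (Fin n → Bool) → Prop
  | .out z, _, _, x, y => conj x y = toBits z ∧ Nz ≤ nz (conj x y)
  | .probe _ _, 0, _, _, _ => False
  | .probe c next, d + 1, a, x, y => Dev Nz g (next (g c x y)) d a x y ∨
      ∃ a', a = a' + 1 ∧ ∃ v, Dev Nz g (next v) d a' x y

/-- a run on contents which differ from `g` at few places -/
lemma dev_of_run {n w S : ℕ} (Nz : ℕ)
    (g : Fin S → (Fin n → Bool) → (Fin n → Bool) → Fin (2 ^ w))
    (t : QTree S (Fin (2 ^ w)) (Finset (Fin n))) (mem : Fin S → Fin (2 ^ w))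
    (x y : Fin n → Bool) : ∀ (d a : ℕ), t.cost mem ≤ d →
      t.bad mem (fun c => mem c ≠ g c x y) ≤ a → conj x y = toBits (t.run mem) →
      Nz ≤ nz (conj x y) → Dev Nz g t d a x y := by
  classical
  induction t with
  | out z =>
    intro d a _ _ h3 h4
    exact ⟨h3, h4⟩
  | probe c next ih =>
    intro d a h1 h2 h3 h4
    cases d with
    | zero =>
      simp only [QTree.cost] at h1
      omega
    | succ d =>
      simp only [QTree.cost] at h1
      simp only [QTree.run] at h3
      unfold QTree.bad at h2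
      by_cases h : mem c ≠ g c x y
      · rw [if_pos h] at h2
        right
        refine ⟨a - 1, by omega, mem c, ?_⟩
        exact ih (mem c) d (a - 1) (by omega) (by omega) h3 h4
      · rw [if_neg h] at h2
        left
        rw [not_not] at h
        rw [← h]
        exact ih (mem c) d a (by omega) (by omega) h3 h4

/-- **Main estimate for lists.** -/
theorem dev_bound {m : ℕ} (hm : 10 ≤ m) (n b w S Nz : ℕ)
    (g : Fin S → (Fin n → Bool) → (Fin n → Bool) → Fin (2 ^ w))
    {L : Type} [Fintype L] (hL : Fintype.card L ≤ 2 ^ b)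
    (q : Fin S → (Fin n → Bool) → (Fin n → Bool) → L)
    (hq : ∀ c x x' y y' l, q c x y = l → q c x' y' = l → q c x y' = l)
    (hg : ∀ c x x' y y', q c x y = q c x' y' → g c x y = g c x' y')
    {ε : ℝ} (hε : 0 < ε) (hε1 : ε ≤ 1) (t : QTree S (Fin (2 ^ w)) (Finset (Fin n)))
    (d a : ℕ) {f h : (Fin n → Bool) → ℝ} (hf : ∀ x, 0 ≤ f x) (hh : ∀ x, 0 ≤ h x) :
    ex2 (1 / (m : ℝ)) n (fun x y => f x * h y * ind (Dev Nz g t d a x y)) ≤
      (((2 : ℝ) ^ b) ^ (1 / ((m : ℝ) + 1)) * (1 + ε)) ^ d * ((2 : ℝ) ^ w / ε) ^ a *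
        ((1 - 1 / (22 * (m : ℝ) ^ 2)) ^ Nz * (nrm m n f * nrm m n h)) := by
  classical
  have hm' : (10 : ℝ) ≤ m := by exact_mod_cast hm
  have hm0 : (0 : ℝ) < m := by linarith
  have hinv : 1 / (m : ℝ) ≤ 1 / 10 := by
    apply one_div_le_one_div_of_le <;> linarith
  have hinv0 : 0 < 1 / (m : ℝ) := by positivity
  have hr1 : 0 ≤ 1 - 1 / (m : ℝ) := by linarith
  have hg0 : 0 ≤ 1 - 1 / (22 * (m : ℝ) ^ 2) := by
    have : 1 / (22 * (m : ℝ) ^ 2) ≤ 1 := by
      rw [div_le_one (by positivity)]
      nlinarith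
    linarith
  have hg1 : 1 - 1 / (22 * (m : ℝ) ^ 2) ≤ 1 := by
    have : 0 ≤ 1 / (22 * (m : ℝ) ^ 2) := by positivity
    linarith
  have hnn : ∀ (u : (Fin n → Bool) → ℝ), (∀ x, 0 ≤ u x) → 0 ≤ nrm m n u := by
    intro u hu
    exact Real.rpow_nonneg (ex_nonneg hinv0.le hr1 n fun x => Real.rpow_nonneg (hu x) _) _
  have hK1 : 1 ≤ ((2 : ℝ) ^ b) ^ (1 / ((m : ℝ) + 1)) :=
    Real.one_le_rpow (one_le_pow₀ (by norm_num)) (by positivity)
  have hsum : ∀ (c : Fin S) {f h : (Fin n → Bool) → ℝ}, (∀ x, 0 ≤ f x) → (∀ x, 0 ≤ h x) →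
      ∑ l, nrm m n (fun x => f x * ind (∃ y, q c x y = l)) *
        nrm m n (fun y => h y * ind (∃ x, q c x y = l)) ≤
      ((2 : ℝ) ^ b) ^ (1 / ((m : ℝ) + 1)) * (nrm m n f * nrm m n h) := by
    intro c f h hf hh
    have h1 := sum_nrm hm n b hf hh hL (fun x y => some (q c x y)) (by
      intro x x' y y' l h1 h2
      simp only [Option.some.injEq] at h1 h2 ⊢
      exact hq c x x' y y' l h1 h2)
    simpa only [Option.some.injEq] using h1
  generalize ((2 : ℝ) ^ b) ^ (1 / ((m : ℝ) + 1)) = K at *
  have hK0 : 0 ≤ K := by linarith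
  have hKe : 1 ≤ K * (1 + ε) := by nlinarith
  have hW0 : 0 < (2 : ℝ) ^ w / ε := by positivity
  have hW1 : 1 ≤ (2 : ℝ) ^ w / ε := by
    rw [le_div_iff₀ hε, one_mul]
    exact hε1.trans (one_le_pow₀ (by norm_num))
  induction t generalizing d a f h with
  | out z =>
    have h1 := tensor hm n hf hh (toBits z)
    have hN := mul_nonneg (hnn f hf) (hnn h hh)
    have h2 : (1 - 1 / (22 * (m : ℝ) ^ 2)) ^ Nz * (nrm m n f * nrm m n h) ≤
        (K * (1 + ε)) ^ d * ((2 : ℝ) ^ w / ε) ^ a * ((1 - 1 / (22 * (m : ℝ) ^ 2)) ^ Nz *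
        (nrm m n f * nrm m n h)) := by
      have e1 : 1 ≤ (K * (1 + ε)) ^ d := one_le_pow₀ hKe
      have e2 : 1 ≤ ((2 : ℝ) ^ w / ε) ^ a := one_le_pow₀ hW1
      have h3 : 0 ≤ (1 - 1 / (22 * (m : ℝ) ^ 2)) ^ Nz * (nrm m n f * nrm m n h) := by positivity
      have e3 : 1 ≤ (K * (1 + ε)) ^ d * ((2 : ℝ) ^ w / ε) ^ a := by nlinarith
      nlinarith
    refine le_trans ?_ h2
    by_cases hz : Nz ≤ nz (toBits z)
    · calc _ ≤ ex2 (1 / (m : ℝ)) n (fun x y => f x * h y * ind (conj x y = toBits z)) := by
            apply ex2_mono hinv0.le hr1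
            intro x y
            exact mul_le_mul_of_nonneg_left (ind_mono fun h => h.1)
              (mul_nonneg (hf x) (hh y))
        _ ≤ _ := h1
        _ ≤ _ := by
            apply mul_le_mul_of_nonneg_right _ hN
            exact pow_le_pow_of_le_one hg0 hg1 hz
    · have h4 : ∀ x y : Fin n → Bool, ind (Dev Nz g (.out z) d a x y) = 0 := by
        intro x y
        apply ind_false
        rintro ⟨h5, h6⟩
        rw [h5] at h6
        exact hz h6
      simp only [h4, mul_zero, ex2_const]
      positivity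
  | probe c next ih =>
    have hN := mul_nonneg (hnn f hf) (hnn h hh)
    cases d with
    | zero =>
      refine le_trans (ex2_mono hinv0.le hr1 n (g := fun _ _ => 0) ?_) ?_
      · intro x y
        rw [ind_false, mul_zero]
        exact fun h => h
      · rw [ex2_const]
        positivity
    | succ d =>
      have hfl : ∀ l x, 0 ≤ f x * ind (∃ y, q c x y = l) :=
        fun l x => mul_nonneg (hf x) (ind_nonneg _)
      have hgl : ∀ l y, 0 ≤ h y * ind (∃ x, q c x y = l) :=
        fun l x => mul_nonneg (hh x) (ind_nonneg _)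
      have hpos : 0 < 2 ^ w := by positivity
      -- the contents on a part
      let g' : L → Fin (2 ^ w) := fun l =>
        if h : ∃ xy : (Fin n → Bool) × (Fin n → Bool), q c xy.1 xy.2 = l then
          g c h.choose.1 h.choose.2 else ⟨0, hpos⟩
      have hg' : ∀ x y, g c x y = g' (q c x y) := by
        intro x y
        have h0 : ∃ xy : (Fin n → Bool) × (Fin n → Bool), q c xy.1 xy.2 = q c x y :=
          ⟨(x, y), rfl⟩
        simp only [g', dif_pos h0]
        exact hg c _ _ _ _ h0.choose_spec.symm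
      obtain ⟨Q, hQ⟩ : ∃ Q, Q = (1 - 1 / (22 * (m : ℝ) ^ 2)) ^ Nz * (nrm m n f * nrm m n h) :=
        ⟨_, rfl⟩
      have hQ0 : 0 ≤ Q := by rw [hQ]; positivity
      have hP0 : 0 ≤ (K * (1 + ε)) ^ d := by positivity
      have hS1 : ex2 (1 / (m : ℝ)) n (fun x y => ∑ l, (f x * ind (∃ y, q c x y = l)) *
          (h y * ind (∃ x, q c x y = l)) * ind (Dev Nz g (next (g' l)) d a x y)) ≤
          (K * (1 + ε)) ^ d * ((2 : ℝ) ^ w / ε) ^ a * (K * Q) := by
        rw [ex2_sum]
        calc _ ≤ ∑ l, (K * (1 + ε)) ^ d * ((2 : ℝ) ^ w / ε) ^ a *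
              ((1 - 1 / (22 * (m : ℝ) ^ 2)) ^ Nz *
              (nrm m n (fun x => f x * ind (∃ y, q c x y = l)) *
                nrm m n (fun y => h y * ind (∃ x, q c x y = l)))) := by
              apply Finset.sum_le_sum
              intro l _
              exact ih (g' l) d a (hfl l) (hgl l)
          _ = (K * (1 + ε)) ^ d * ((2 : ℝ) ^ w / ε) ^ a * ((1 - 1 / (22 * (m : ℝ) ^ 2)) ^ Nz *
              ∑ l, (nrm m n (fun x => f x * ind (∃ y, q c x y = l)) *
                nrm m n (fun y => h y * ind (∃ x, q c x y = l)))) := by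
              rw [Finset.mul_sum, Finset.mul_sum]
          _ ≤ (K * (1 + ε)) ^ d * ((2 : ℝ) ^ w / ε) ^ a * ((1 - 1 / (22 * (m : ℝ) ^ 2)) ^ Nz *
              (K * (nrm m n f * nrm m n h))) := by
              apply mul_le_mul_of_nonneg_left _ (by positivity)
              exact mul_le_mul_of_nonneg_left (hsum c hf hh) (by positivity)
          _ = _ := by rw [hQ]; ring
      have hpt : ∀ x y, f x * h y * ind (Dev Nz g (next (g c x y)) d a x y) ≤
          ∑ l, (f x * ind (∃ y, q c x y = l)) *
          (h y * ind (∃ x, q c x y = l)) * ind (Dev Nz g (next (g' l)) d a x y) := by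
        intro x y
        refine le_trans (le_of_eq ?_) (Finset.single_le_sum (fun l _ => mul_nonneg (mul_nonneg
          (hfl l x) (hgl l y)) (ind_nonneg _)) (Finset.mem_univ (q c x y)))
        rw [ind_true (P := ∃ y', q c x y' = q c x y) ⟨y, rfl⟩,
          ind_true (P := ∃ x', q c x' y = q c x y) ⟨x, rfl⟩, mul_one, mul_one, hg']
      cases a with
      | zero =>
        calc _ ≤ ex2 (1 / (m : ℝ)) n (fun x y => ∑ l, (f x * ind (∃ y, q c x y = l)) *
              (h y * ind (∃ x, q c x y = l)) * ind (Dev Nz g (next (g' l)) d 0 x y)) := by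
              apply ex2_mono hinv0.le hr1
              intro x y
              refine le_trans ?_ (hpt x y)
              apply mul_le_mul_of_nonneg_left (ind_mono _) (mul_nonneg (hf x) (hh y))
              rintro (h1 | ⟨a', h1, -⟩)
              · exact h1
              · omega
          _ ≤ (K * (1 + ε)) ^ d * ((2 : ℝ) ^ w / ε) ^ 0 * (K * Q) := hS1
          _ ≤ (K * (1 + ε)) ^ d * ((2 : ℝ) ^ w / ε) ^ 0 * ((K * (1 + ε)) * Q) := by
              apply mul_le_mul_of_nonneg_left _ (by positivity)
              apply mul_le_mul_of_nonneg_right _ hQ0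
              nlinarith
          _ = _ := by rw [hQ]; ring
      | succ a =>
        have hS2 : ex2 (1 / (m : ℝ)) n (fun x y => ∑ v : Fin (2 ^ w),
            f x * h y * ind (Dev Nz g (next v) d a x y)) ≤
            2 ^ w * ((K * (1 + ε)) ^ d * ((2 : ℝ) ^ w / ε) ^ a * Q) := by
          rw [ex2_sum]
          calc _ ≤ ∑ _v : Fin (2 ^ w), (K * (1 + ε)) ^ d * ((2 : ℝ) ^ w / ε) ^ a * Q := by
                apply Finset.sum_le_sum
                intro v _
                rw [hQ]
                exact ih v d a hf hh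
            _ = _ := by
                rw [Finset.sum_const, Finset.card_univ, Fintype.card_fin, nsmul_eq_mul]
                push_cast
                ring
        calc _ ≤ ex2 (1 / (m : ℝ)) n (fun x y => (∑ l, (f x * ind (∃ y, q c x y = l)) *
              (h y * ind (∃ x, q c x y = l)) * ind (Dev Nz g (next (g' l)) d (a + 1) x y)) +
              ∑ v : Fin (2 ^ w), f x * h y * ind (Dev Nz g (next v) d a x y)) := by
              apply ex2_mono hinv0.le hr1
              intro x y
              have hv0 : 0 ≤ ∑ v : Fin (2 ^ w), f x * h y * ind (Dev Nz g (next v) d a x y) :=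
                Finset.sum_nonneg fun v _ => mul_nonneg (mul_nonneg (hf x) (hh y)) (ind_nonneg _)
              have hl0 := hpt x y
              have hl1 : 0 ≤ f x * h y * ind (Dev Nz g (next (g c x y)) d (a + 1) x y) :=
                mul_nonneg (mul_nonneg (hf x) (hh y)) (ind_nonneg _)
              by_cases hD : Dev Nz g (.probe c next) (d + 1) (a + 1) x y
              · rcases hD with h1 | ⟨a', h1, v, h2⟩
                · rw [ind_true (P := Dev Nz g (.probe c next) (d + 1) (a + 1) x y) (Or.inl h1)]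
                  rw [ind_true h1] at hl0
                  linarith
                · have ha : a' = a := by omega
                  subst ha
                  rw [ind_true (P := Dev Nz g (.probe c next) (d + 1) (a' + 1) x y)
                    (Or.inr ⟨a', rfl, v, h2⟩)]
                  have h3 := Finset.single_le_sum (f := fun v : Fin (2 ^ w) =>
                    f x * h y * ind (Dev Nz g (next v) d a' x y)) (fun v _ =>
                    mul_nonneg (mul_nonneg (hf x) (hh y)) (ind_nonneg _)) (Finset.mem_univ v)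
                  beta_reduce at h3
                  rw [ind_true h2] at h3
                  linarith
              · rw [ind_false hD, mul_zero]
                linarith
          _ ≤ (K * (1 + ε)) ^ d * ((2 : ℝ) ^ w / ε) ^ (a + 1) * (K * Q) +
              2 ^ w * ((K * (1 + ε)) ^ d * ((2 : ℝ) ^ w / ε) ^ a * Q) := by
              rw [ex2_add]
              exact add_le_add hS1 hS2
          _ = (K * (1 + ε)) ^ d * ((2 : ℝ) ^ w / ε) ^ (a + 1) * ((K + ε) * Q) := by
              rw [pow_succ ((2 : ℝ) ^ w / ε) a]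
              field_simp
          _ ≤ (K * (1 + ε)) ^ d * ((2 : ℝ) ^ w / ε) ^ (a + 1) * ((K * (1 + ε)) * Q) := by
              apply mul_le_mul_of_nonneg_left _ (by positivity)
              apply mul_le_mul_of_nonneg_right _ hQ0
              nlinarith
          _ = _ := by rw [hQ]; ring

end Pool.Agent.H284.PS
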