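import Pool.Agent.Run7.h284.PS.Circ
import Pool.Agent.TH457.EntD.Average

/-!
# Two independent random families and exchanges of sets between them
-/

set_option autoImplicit false

namespace Pool.Agent.H284.PS

open Finset DomAC0 H568R2

variable {I : Type} [Fintype I] [DecidableEq I] {A : Type} [Fintype A] {V : Type}

/-- the members of `F` and `F'` chosen by `z` -/
def mix (z : I → Bool) (F F' : I → A) : I → A := fun l => if z l = true then F' l else F l

/-- expectation over two independent families -/
noncomputable def E2 (μ : A → ℝ) (H : (I → A) → (I → A) → ℝ) : ℝ :=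
  Ex μ (fun F' : I → A => Ex μ (fun F : I → A => H F F'))

section

variable {μ : A → ℝ}

lemma E2_mono (hμ : ∀ a, 0 ≤ μ a) {G H : (I → A) → (I → A) → ℝ} (h : ∀ F F', G F F' ≤ H F F') :
    E2 μ G ≤ E2 μ H :=
  Ex_mono hμ fun F' => Ex_mono hμ fun F => h F F'

lemma E2_const (hμ : ∑ a, μ a = 1) (c : ℝ) : E2 μ (fun _ _ : I → A => c) = c := by
  unfold E2
  simp only [Ex_const hμ]

lemma E2_add (G H : (I → A) → (I → A) → ℝ) :
    E2 μ (fun F F' => G F F' + H F F') = E2 μ G + E2 μ H := by
  unfold E2
  simp only [Ex_add]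

lemma E2_smul (c : ℝ) (G : (I → A) → (I → A) → ℝ) :
    E2 μ (fun F F' => c * G F F') = c * E2 μ G := by
  unfold E2
  simp only [Ex_smul]

lemma E2_sum {κ : Type} (s : Finset κ) (G : κ → (I → A) → (I → A) → ℝ) :
    E2 μ (fun F F' => ∑ k ∈ s, G k F F') = ∑ k ∈ s, E2 μ (G k) := by
  unfold E2
  simp only [Ex_sum]

lemma E2_left (hμ : ∑ a, μ a = 1) (G : (I → A) → ℝ) :
    E2 μ (fun F _ => G F) = Ex μ G := by
  unfold E2
  rw [Ex_const hμ]

lemma E2_right (hμ : ∑ a, μ a = 1) (G : (I → A) → ℝ) :
    E2 μ (fun _ F' => G F') = Ex μ G := by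
  unfold E2
  simp only [Ex_const hμ]

/-- exchange of the sets in `z` -/
lemma E2_mix (z : I → Bool) (H : (I → A) → (I → A) → ℝ) :
    E2 μ (fun F F' => H (mix z F F') (mix z F' F)) = E2 μ H := by
  have h1 := Ex_prod (I := I) μ μ (fun ω => H (fun l => (ω l).2) (fun l => (ω l).1))
  have h2 := Ex_prod (I := I) μ μ
    (fun ω => H (mix z (fun l => (ω l).2) (fun l => (ω l).1))
      (mix z (fun l => (ω l).1) (fun l => (ω l).2)))
  have h3 : E2 μ H = Ex (fun c : A × A => μ c.1 * μ c.2)
      (fun ω : I → A × A => H (fun l => (ω l).2) (fun l => (ω l).1)) := by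
    rw [h1]
    rfl
  have h4 : E2 μ (fun F F' => H (mix z F F') (mix z F' F)) =
      Ex (fun c : A × A => μ c.1 * μ c.2) (fun ω : I → A × A =>
        H (mix z (fun l => (ω l).2) (fun l => (ω l).1))
          (mix z (fun l => (ω l).1) (fun l => (ω l).2))) := by
    rw [h2]
    rfl
  rw [h3, h4]
  unfold Ex
  let σ : (I → A × A) → (I → A × A) := fun ω l => if z l = true then (ω l).swap else ω l
  have hσ : Function.Involutive σ := by
    intro ω
    funext l
    simp only [σ]
    by_cases h : z l = true
    · simp [h]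
    · simp [h]
  symm
  rw [← Equiv.sum_comp hσ.toPerm]
  apply Finset.sum_congr rfl
  intro ω _
  simp only [Function.Involutive.coe_toPerm]
  congr 1
  · apply Finset.prod_congr rfl
    intro l _
    simp only [σ]
    by_cases h : z l = true
    · simp [h, mul_comm]
    · simp [h]
  · congr 1
    · funext l
      simp only [σ, mix]
      by_cases h : z l = true
      · simp [h]
      · simp [h]
    · funext l
      simp only [σ, mix]
      by_cases h : z l = true
      · simp [h]
      · simp [h]

end

omit [Fintype I] [Fintype A] in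
/-- exchange of one set -/
lemma mix_one (F F' : I → A) (i : I) :
    mix (fun l => decide (l = i)) F F' = Function.update F i (F' i) := by
  funext l
  unfold mix
  by_cases h : l = i
  · subst h
    simp
  · simp [h]

lemma E2_swap {μ : A → ℝ} (i : I) (H : (I → A) → (I → A) → ℝ) :
    E2 μ (fun F F' => H (Function.update F i (F' i)) (Function.update F' i (F i))) = E2 μ H := by
  rw [← E2_mix (fun l => decide (l = i)) H]
  simp only [mix_one]

omit [Fintype I] [Fintype A] in
lemma mix_flip (z : I → Bool) (F F' : I → A) (l : I) :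
    Function.update (mix z F F') l (mix z F' F l) = mix (flip z l) F F' := by
  funext k
  unfold mix flip
  by_cases h : k = l
  · subst h
    by_cases hz : z k = true
    · simp [hz]
    · simp [hz]
  · simp [Function.update_of_ne h]

open Classical in
/-- the sets whose exchange changes the value -/
noncomputable def sset (Φ : (I → A) → V) (F F' : I → A) : Finset I :=
  univ.filter fun l => Φ (Function.update F l (F' l)) ≠ Φ F

/-- the function `Φ` is computed by a circuit of depth at most `d` with at most `s` gates whose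
inputs are arbitrary functions of single sets -/
def Computed (d s : ℕ) (Φ : (I → A) → Bool) : Prop :=
  ∃ (J : Type) (C : Circuit J) (l : J → I) (h : J → A → Bool), C.size ≤ s ∧ C.depth ≤ d ∧
    ∀ F, Φ F = C.eval (fun j => h j (F (l j)))

/-- **The number of sensitive sets: second moment.** -/
theorem bit_moment {μ : A → ℝ} (h0 : ∀ a, 0 ≤ μ a) (h1 : ∑ a, μ a = 1) {d κ : ℕ}
    (hI : Fintype.card I ≤ 2 ^ κ) {Φ : (I → A) → Bool} (hΦ : Computed d (2 ^ κ) Φ) :
    E2 μ (fun F F' => ((sset Φ F F').card : ℝ) ^ 2) ≤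
      (72 * κ + 24 * d + 24 : ℝ) ^ (2 * d + 2) := by
  classical
  obtain ⟨J, C, l, h, hsize, hdepth, hC⟩ := hΦ
  have h2 : ∀ (z : I → Bool) (F F' : I → A), (sset Φ (mix z F F') (mix z F' F)).card =
      SS (fun z => C.eval (fun j => h j (mix z F F' (l j)))) z := by
    intro z F F'
    unfold sset SS
    congr 1
    ext k
    simp only [Finset.mem_filter, Finset.mem_univ, true_and]
    rw [mix_flip, hC, hC]
  have h3 : E2 μ (fun F F' => ((sset Φ F F').card : ℝ) ^ 2) =
      Ex uw (fun z : I → Bool =>
        E2 μ (fun F F' => ((sset Φ (mix z F F') (mix z F' F)).card : ℝ) ^ 2)) := by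
    have h4 : ∀ z : I → Bool,
        E2 μ (fun F F' => ((sset Φ (mix z F F') (mix z F' F)).card : ℝ) ^ 2) =
          E2 μ (fun F F' => ((sset Φ F F').card : ℝ) ^ 2) := fun z =>
      E2_mix z (fun F F' => ((sset Φ F F').card : ℝ) ^ 2)
    simp only [h4]
    rw [Ex_const uw_sum]
  rw [h3]
  simp only [h2]
  have h5 : Ex uw (fun z : I → Bool =>
        E2 μ (fun F F' => (SS (fun z => C.eval (fun j => h j (mix z F F' (l j)))) z : ℝ) ^ 2)) =
      E2 μ (fun F F' => Ex uw (fun z : I → Bool =>
        (SS (fun z => C.eval (fun j => h j (mix z F F' (l j)))) z : ℝ) ^ 2)) := by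
    unfold E2 Ex
    simp only [Finset.mul_sum]
    rw [Finset.sum_comm]
    apply Finset.sum_congr rfl
    intro F' _
    rw [Finset.sum_comm]
    apply Finset.sum_congr rfl
    intro F _
    apply Finset.sum_congr rfl
    intro z _
    ring
  rw [h5, ← E2_const (I := I) h1 ((72 * κ + 24 * d + 24 : ℝ) ^ (2 * d + 2))]
  apply E2_mono h0
  intro F F'
  apply circuit_moment C (σ := fun z j => h j (mix z F F' (l j))) _ hI hsize hdepth
  intro j
  refine ⟨l j, fun t => if t = true then h j (F' (l j)) else h j (F (l j)), ?_⟩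
  intro x
  simp only [mix]
  by_cases hx : x (l j) = true
  · simp [hx]
  · simp [hx]

end Pool.Agent.H284.PS
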