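import Pool.Agent.Run7.h284.PS.Word

/-!
# Families in two halves
-/

set_option autoImplicit false

namespace Pool.Agent.H284.PS

open Finset DomAC0 H568R2
open Pool.Agent.W959 Pool.Agent.W959.Ent Pool.Agent.TH457.EntD

variable {k n w S T m N : ℕ}

/-- the first half -/
abbrev fstH {A : Type} (F : Fin (k + k) → A) : Fin k → A := fun i => F (Fin.castAdd k i)

/-- the second half -/
abbrev sndH {A : Type} (F : Fin (k + k) → A) : Fin k → A := fun i => F (Fin.natAdd k i)

lemma fstH_left {A : Type} (F : Fin (k + k) → A) (i : Fin k) (z : A) :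
    fstH (Function.update F (Fin.castAdd k i) z) = Function.update (fstH F) i z := by
  funext l
  by_cases h : l = i
  · subst h
    rw [Function.update_self]
    exact Function.update_self _ _ _
  · have : Fin.castAdd k l ≠ Fin.castAdd k i := fun h' => h (Fin.castAdd_injective k k h')
    rw [Function.update_of_ne h]
    exact Function.update_of_ne this _ _

lemma sndH_left {A : Type} (F : Fin (k + k) → A) (i : Fin k) (z : A) :
    sndH (Function.update F (Fin.castAdd k i) z) = sndH F := by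
  funext l
  have : Fin.natAdd k l ≠ Fin.castAdd k i := by
    intro h
    have := congrArg Fin.val h
    simp at this
    omega
  exact Function.update_of_ne this _ _

lemma fstH_right {A : Type} (F : Fin (k + k) → A) (i : Fin k) (z : A) :
    fstH (Function.update F (Fin.natAdd k i) z) = fstH F := by
  funext l
  have : Fin.castAdd k l ≠ Fin.natAdd k i := by
    intro h
    have := congrArg Fin.val h
    simp at this
    omega
  exact Function.update_of_ne this _ _

lemma sndH_right {A : Type} (F : Fin (k + k) → A) (i : Fin k) (z : A) :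
    sndH (Function.update F (Fin.natAdd k i) z) = Function.update (sndH F) i z := by
  funext l
  by_cases h : l = i
  · subst h
    rw [Function.update_self]
    exact Function.update_self _ _ _
  · have : Fin.natAdd k l ≠ Fin.natAdd k i := fun h' => h (Fin.natAdd_injective k k h')
    rw [Function.update_of_ne h]
    exact Function.update_of_ne this _ _

lemma sum_halves (f : Fin (k + k) → ℕ) :
    ∑ l, f l = ∑ i, f (Fin.castAdd k i) + ∑ i, f (Fin.natAdd k i) := Fin.sum_univ_add f

lemma pe_inj (k : ℕ) : Function.Injective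
    (fun e : Fin k × Fin k => (Fin.castAdd k e.1, Fin.natAdd k e.2)) := by
  rintro ⟨a1, a2⟩ ⟨b1, b2⟩ h
  simp only [Prod.mk.injEq] at h
  rw [Prod.mk.injEq]
  exact ⟨Fin.castAdd_injective k k h.1, Fin.natAdd_injective k k h.2⟩

/-- the pair of indices -/
def pe (k : ℕ) : Fin k × Fin k ↪ Fin (k + k) × Fin (k + k) :=
  ⟨fun e => (Fin.castAdd k e.1, Fin.natAdd k e.2), pe_inj k⟩

lemma pe_apply (e : Fin k × Fin k) : pe k e = (Fin.castAdd k e.1, Fin.natAdd k e.2) := rfl

/-- the pairs of a set of the first half and a set of the second half -/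
def pairs (k : ℕ) : Finset (Fin (k + k) × Fin (k + k)) := Finset.univ.map (pe k)

lemma card_pairs' (k : ℕ) : (pairs k).card = k * k := by simp [pairs]

/-- the query tree for a pair -/
def tr {W : Type} [Inhabited W] (t : Fin k → Fin k → QTree S (Fin (2 ^ w)) W)
    (e : Fin (k + k) × Fin (k + k)) : QTree S (Fin (2 ^ w)) W :=
  match finSumFinEquiv.symm e.1, finSumFinEquiv.symm e.2 with
  | Sum.inl i, Sum.inr j => t i j
  | _, _ => .out default

lemma tr_eq {W : Type} [Inhabited W] (t : Fin k → Fin k → QTree S (Fin (2 ^ w)) W)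
    (i j : Fin k) : tr t (Fin.castAdd k i, Fin.natAdd k j) = t i j := by
  unfold tr
  simp only [finSumFinEquiv_symm_apply_castAdd, finSumFinEquiv_symm_apply_natAdd]

/-- the cell is sensitive to both sets -/
def BH {A V : Type} (φ : (Fin k → A) → (Fin k → A) → V) (i j : Fin k) (X Y X' Y' : Fin k → A) :
    Prop :=
  φ (Function.update X i (X' i)) Y ≠ φ X Y ∧ φ X (Function.update Y j (Y' j)) ≠ φ X Y

lemma setOf_update (F : Fin k → Fin n → Bool) (i : Fin k) (x : Fin n → Bool) :
    (fun l => Ent.setOf (Function.update F i x l)) =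
      Function.update (fun l => Ent.setOf (F l)) i (Ent.setOf x) := by
  funext l
  by_cases h : l = i
  · subst h
    simp
  · simp [Function.update_of_ne h]

lemma BS_iff {V : Type} (φ : (Fin k → Finset (Fin n)) → (Fin k → Finset (Fin n)) → V)
    (i j : Fin k) (F F' : Fin (k + k) → Fin n → Bool) :
    BS (fun G => φ (fstH (fm G)) (sndH (fm G))) (Fin.castAdd k i) (Fin.natAdd k j) F F' ↔
      BH φ i j (fstH (fm F)) (sndH (fm F)) (fstH (fm F')) (sndH (fm F')) := by
  unfold BS BH
  beta_reduce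
  have e1 : fstH (fm (Function.update F (Fin.castAdd k i) (F' (Fin.castAdd k i)))) =
      Function.update (fstH (fm F)) i (fstH (fm F') i) := by
    have h1 : fm (Function.update F (Fin.castAdd k i) (F' (Fin.castAdd k i))) =
        Function.update (fm F) (Fin.castAdd k i) (fm F' (Fin.castAdd k i)) := setOf_update _ _ _
    rw [h1, fstH_left]
  have e2 : sndH (fm (Function.update F (Fin.castAdd k i) (F' (Fin.castAdd k i)))) =
      sndH (fm F) := by
    have h1 : fm (Function.update F (Fin.castAdd k i) (F' (Fin.castAdd k i))) =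
        Function.update (fm F) (Fin.castAdd k i) (fm F' (Fin.castAdd k i)) := setOf_update _ _ _
    rw [h1, sndH_left]
  have e3 : fstH (fm (Function.update F (Fin.natAdd k j) (F' (Fin.natAdd k j)))) =
      fstH (fm F) := by
    have h1 : fm (Function.update F (Fin.natAdd k j) (F' (Fin.natAdd k j))) =
        Function.update (fm F) (Fin.natAdd k j) (fm F' (Fin.natAdd k j)) := setOf_update _ _ _
    rw [h1, fstH_right]
  have e4 : sndH (fm (Function.update F (Fin.natAdd k j) (F' (Fin.natAdd k j)))) =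
      Function.update (sndH (fm F)) j (sndH (fm F') j) := by
    have h1 : fm (Function.update F (Fin.natAdd k j) (F' (Fin.natAdd k j))) =
        Function.update (fm F) (Fin.natAdd k j) (fm F' (Fin.natAdd k j)) := setOf_update _ _ _
    rw [h1, sndH_right]
  rw [e1, e2, e3, e4]

lemma computed_of {d s : ℕ} {φ : (Fin k → Finset (Fin n)) → (Fin k → Finset (Fin n)) → Bool}
    (h : SI.BoundedDepth d s φ) :
    Computed d s (fun G : Fin (k + k) → Fin n → Bool => φ (fstH (fm G)) (sndH (fm G))) := by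
  obtain ⟨J, C, l, h, h1, h2, h3⟩ := h
  refine ⟨J, C, fun j => Sum.elim (Fin.castAdd k) (Fin.natAdd k) (l j),
    fun j x => h j (Ent.setOf x), h1, h2, ?_⟩
  intro G
  beta_reduce
  rw [h3]
  congr 1
  funext j
  cases l j with
  | inl i => rfl
  | inr i => rfl

open Classical in
/-- double counting of the sensitive pairs -/
lemma sum_pairs {W : Type} [Inhabited W] (t : Fin k → Fin k → QTree S (Fin (2 ^ w)) W)
    (φ : Fin S → (Fin k → Finset (Fin n)) → (Fin k → Finset (Fin n)) → Fin (2 ^ w))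
    (F F' : Fin (k + k) → Fin n → Bool) :
    ∑ e ∈ pairs k, ∑ c ∈ cells (tr t e),
      ind (BS (fun G => φ c (fstH (fm G)) (sndH (fm G))) e.1 e.2 F F') =
      ∑ c, (((Finset.univ : Finset (Fin k × Fin k)).filter fun e =>
          c ∈ cells (t e.1 e.2) ∧ BH (φ c) e.1 e.2 (fstH (fm F)) (sndH (fm F))
            (fstH (fm F')) (sndH (fm F'))).card : ℝ) := by
  unfold pairs
  rw [Finset.sum_map]
  simp only [pe_apply, tr_eq]
  have h1 : ∀ e : Fin k × Fin k, ∑ c ∈ cells (t e.1 e.2),
      ind (BS (fun G => φ c (fstH (fm G)) (sndH (fm G))) (Fin.castAdd k e.1)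
        (Fin.natAdd k e.2) F F') =
      ∑ c, if c ∈ cells (t e.1 e.2) ∧ BH (φ c) e.1 e.2 (fstH (fm F)) (sndH (fm F))
          (fstH (fm F')) (sndH (fm F')) then (1 : ℝ) else 0 := by
    intro e
    rw [← Finset.sum_filter_add_sum_filter_not Finset.univ (fun c => c ∈ cells (t e.1 e.2))]
    have h2 : ∑ c ∈ Finset.univ.filter (fun c => ¬ c ∈ cells (t e.1 e.2)),
        (if c ∈ cells (t e.1 e.2) ∧ BH (φ c) e.1 e.2 (fstH (fm F)) (sndH (fm F))
          (fstH (fm F')) (sndH (fm F')) then (1 : ℝ) else 0) = 0 := by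
      apply Finset.sum_eq_zero
      intro c hc
      rw [if_neg]
      intro h
      exact (Finset.mem_filter.1 hc).2 h.1
    rw [h2, add_zero, Finset.filter_mem_eq_inter, Finset.univ_inter]
    apply Finset.sum_congr rfl
    intro c hc
    have h3 := BS_iff (φ c) e.1 e.2 F F'
    by_cases h4 : BH (φ c) e.1 e.2 (fstH (fm F)) (sndH (fm F)) (fstH (fm F')) (sndH (fm F'))
    · rw [ind_true (h3.2 h4), if_pos ⟨hc, h4⟩]
    · rw [ind_false fun h => h4 (h3.1 h), if_neg fun h => h4 h.2]
  simp only [h1]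
  rw [Finset.sum_comm]
  apply Finset.sum_congr rfl
  intro c _
  rw [Finset.card_filter]
  push_cast
  rfl

/-- the number of sensitive pairs of a memory of bounded depth -/
lemma joint_moment {W : Type} [Inhabited W] {μ : (Fin n → Bool) → ℝ} (hμ0 : ∀ a, 0 ≤ μ a)
    (hμ1 : ∑ a, μ a = 1) {Ω : Type} [Fintype Ω] (p : Ω → ℝ) (hp0 : ∀ ω, 0 ≤ p ω)
    (hp1 : ∑ ω, p ω = 1)
    (Φ : Ω → Fin S → (Fin k → Finset (Fin n)) → (Fin k → Finset (Fin n)) → Fin (2 ^ w))
    (t : Ω → Fin k → Fin k → QTree S (Fin (2 ^ w)) W)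
    (d κ s : ℕ) (hκ : k + k ≤ 2 ^ κ) (Jt : Ω → Finset (Fin S)) (hs : ∀ ω, (Jt ω).card ≤ s)
    (hfree : ∀ ω i j, ∀ c ∈ cells (t ω i j), c ∉ Jt ω →
        (∀ X Y Z, Φ ω c (Function.update X i Z) Y = Φ ω c X Y) ∨
        (∀ X Y Z, Φ ω c X (Function.update Y j Z) = Φ ω c X Y))
    (hdep : ∀ ω, ∀ c ∈ Jt ω, ∀ l < w,
        SI.BoundedDepth d (2 ^ κ) (fun X Y => (Φ ω c X Y).val.testBit l)) :
    E2 μ (fun F F' : Fin (k + k) → Fin n → Bool => ∑ ω, p ω *
        ∑ e ∈ pairs k, ∑ c ∈ cells (tr (t ω) e),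
          ind (BS (fun G => Φ ω c (fstH (fm G)) (sndH (fm G))) e.1 e.2 F F')) ≤
      s * ((w : ℝ) ^ 2 * (72 * κ + 24 * d + 24 : ℝ) ^ (2 * d + 2)) := by
  classical
  have h1 : E2 μ (fun F F' : Fin (k + k) → Fin n → Bool => ∑ ω, p ω *
      ∑ e ∈ pairs k, ∑ c ∈ cells (tr (t ω) e),
        ind (BS (fun G => Φ ω c (fstH (fm G)) (sndH (fm G))) e.1 e.2 F F')) ≤
      E2 μ (fun F F' : Fin (k + k) → Fin n → Bool => ∑ ω, p ω *
        ∑ c ∈ Jt ω, ((sset (fun G => Φ ω c (fstH (fm G)) (sndH (fm G))) F F').card : ℝ) ^ 2) := by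
    apply E2_mono hμ0
    intro F F'
    apply Finset.sum_le_sum
    intro ω _
    apply mul_le_mul_of_nonneg_left _ (hp0 ω)
    have h3 : ∀ e ∈ pairs k, ∑ c ∈ cells (tr (t ω) e),
        ind (BS (fun G => Φ ω c (fstH (fm G)) (sndH (fm G))) e.1 e.2 F F') ≤
        ∑ c ∈ Jt ω, ind (BS (fun G => Φ ω c (fstH (fm G)) (sndH (fm G))) e.1 e.2 F F') := by
      intro e he
      simp only [pairs, Finset.mem_map, Finset.mem_univ, true_and] at he
      obtain ⟨⟨i, j⟩, rfl⟩ := he
      simp only [pe_apply, tr_eq]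
      have h4 : ∀ c ∈ cells (t ω i j), c ∉ Jt ω →
          ind (BS (fun G => Φ ω c (fstH (fm G)) (sndH (fm G))) (Fin.castAdd k i)
            (Fin.natAdd k j) F F') = 0 := by
        intro c hc hcJ
        apply ind_false
        intro hB
        have h5 := (BS_iff (Φ ω c) i j F F').1 hB
        rcases hfree ω i j c hc hcJ with h6 | h6
        · exact h5.1 (h6 _ _ _)
        · exact h5.2 (h6 _ _ _)
      calc _ = ∑ c ∈ (cells (t ω i j)).filter (fun c => c ∈ Jt ω),
            ind (BS (fun G => Φ ω c (fstH (fm G)) (sndH (fm G))) (Fin.castAdd k i)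
              (Fin.natAdd k j) F F') := by
            rw [Finset.sum_filter]
            apply Finset.sum_congr rfl
            intro c hc
            by_cases h7 : c ∈ Jt ω
            · rw [if_pos h7]
            · rw [if_neg h7, h4 c hc h7]
        _ ≤ _ := by
            apply Finset.sum_le_sum_of_subset_of_nonneg
            · intro c hc
              exact (Finset.mem_filter.1 hc).2
            · intro c _ _
              exact ind_nonneg _
    refine (Finset.sum_le_sum h3).trans ?_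
    rw [Finset.sum_comm]
    apply Finset.sum_le_sum
    intro c _
    exact sum_BS_le _ _ _ _
  refine h1.trans ?_
  rw [E2_sum]
  simp only [E2_smul, E2_sum]
  have hB0 : 0 ≤ (w : ℝ) ^ 2 * (72 * κ + 24 * d + 24 : ℝ) ^ (2 * d + 2) := by positivity
  calc _ ≤ ∑ ω, p ω * ((s : ℝ) * ((w : ℝ) ^ 2 * (72 * κ + 24 * d + 24 : ℝ) ^ (2 * d + 2))) := by
        apply Finset.sum_le_sum
        intro ω _
        apply mul_le_mul_of_nonneg_left _ (hp0 ω)
        have h2 : ∑ c ∈ Jt ω, E2 μ (fun F F' : Fin (k + k) → Fin n → Bool =>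
            ((sset (fun G => Φ ω c (fstH (fm G)) (sndH (fm G))) F F').card : ℝ) ^ 2) ≤
            ∑ _c ∈ Jt ω, ((w : ℝ) ^ 2 * (72 * κ + 24 * d + 24 : ℝ) ^ (2 * d + 2)) := by
          apply Finset.sum_le_sum
          intro c hc
          apply word_moment hμ0 hμ1 (by rw [Fintype.card_fin]; exact hκ)
          intro l hl
          exact computed_of (hdep ω c hc l hl)
        refine h2.trans ?_
        rw [Finset.sum_const, nsmul_eq_mul]
        apply mul_le_mul_of_nonneg_right _ hB0
        exact_mod_cast hs ω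
    _ = _ := by rw [← Finset.sum_mul, hp1, one_mul]

open Classical in
/-- **Families in two halves.** -/
theorem halves (hm : 100 * (2 * w * T + 12) ≤ m) (hn : n = m ^ 2)
    (hN : 4000 * (k * m) ≤ N) {Ω : Type} [Fintype Ω] (p : Ω → ℝ) (hp0 : ∀ ω, 0 ≤ p ω)
    (hp1 : ∑ ω, p ω = 1)
    (Φ : Ω → Fin S → (Fin k → Finset (Fin n)) → (Fin k → Finset (Fin n)) → Fin (2 ^ w))
    (v : Bool) (t : Ω → Fin k → Fin k → QTree S (Fin (2 ^ w)) Bool)
    (hgood : ∀ X Y : Fin k → Finset (Fin n), SI.size X + SI.size Y ≤ N → ∀ i j, 99 / 100 ≤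
      ∑ ω, if RightT T v (fun c => Φ ω c X Y) (t ω i j) (Disjoint (X i) (Y j)) then p ω else 0) :
    (∀ R : ℝ, (∀ X Y X' Y' : Fin k → Finset (Fin n),
        SI.size X + SI.size Y + (SI.size X' + SI.size Y') ≤ N →
        ∑ ω, p ω * ∑ c, (((Finset.univ : Finset (Fin k × Fin k)).filter fun e =>
          c ∈ cells (t ω e.1 e.2) ∧ BH (Φ ω c) e.1 e.2 X Y X' Y').card : ℝ) ≤ R) →
      (k : ℝ) ^ 2 ≤ 1700 * R) ∧
    (∀ d κ s : ℕ, k + k ≤ 2 ^ κ → ∀ Jt : Ω → Finset (Fin S), (∀ ω, (Jt ω).card ≤ s) →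
      (∀ ω i j, ∀ c ∈ cells (t ω i j), c ∉ Jt ω →
        (∀ X Y Z, Φ ω c (Function.update X i Z) Y = Φ ω c X Y) ∨
        (∀ X Y Z, Φ ω c X (Function.update Y j Z) = Φ ω c X Y)) →
      (∀ ω, ∀ c ∈ Jt ω, ∀ l < w,
        SI.BoundedDepth d (2 ^ κ) (fun X Y => (Φ ω c X Y).val.testBit l)) →
      (k : ℝ) ^ 2 ≤
        1700 * (s * ((w : ℝ) ^ 2 * (72 * κ + 24 * d + 24 : ℝ) ^ (2 * d + 2)))) := by
  have hm12 : 1200 ≤ m := le_trans (by omega) hm
  have hm' : (1200 : ℝ) ≤ m := by exact_mod_cast hm12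
  have hinv0 : 0 < 1 / (m : ℝ) := by positivity
  have hr1 : 0 ≤ 1 - 1 / (m : ℝ) := by
    have : 1 / (m : ℝ) ≤ 1 := by
      rw [div_le_one (by linarith)]; linarith
    linarith
  have hμ0 := mu_nonneg hinv0.le hr1 n
  have hμ1 := sum_mu (r := 1 / (m : ℝ)) n
  have key : ∀ R : ℝ, E2 (mu (1 / (m : ℝ)) n) (fun F F' => ind (Gd N F F') * ∑ ω, p ω *
      ∑ e ∈ pairs k, ∑ c ∈ cells (tr (t ω) e),
        ind (BS (fun G => Φ ω c (fstH (fm G)) (sndH (fm G))) e.1 e.2 F F')) ≤ R →
      (k : ℝ) ^ 2 ≤ 1700 * R := by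
    intro R hR
    have h1 := sens_average (K := k + k) hm hn (by
      calc 2000 * ((k + k) * m) = 4000 * (k * m) := by ring
        _ ≤ N := hN) p hp0 hp1 (fun ω c F => Φ ω c (fstH F) (sndH F)) (pairs k) (by
        intro e he
        simp only [pairs, Finset.mem_map, Finset.mem_univ, true_and] at he
        obtain ⟨⟨i, j⟩, rfl⟩ := he
        intro h
        have h' : (Fin.castAdd k i).val = (Fin.natAdd k j).val := congrArg Fin.val h
        simp at h'
        omega) v (fun ω => tr (t ω)) (by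
        intro e he F hF
        simp only [pairs, Finset.mem_map, Finset.mem_univ, true_and] at he
        obtain ⟨⟨i, j⟩, rfl⟩ := he
        have h2 := hgood (fstH F) (sndH F) (by
          rw [sum_halves] at hF
          exact hF) i j
        refine h2.trans (le_of_eq ?_)
        apply Finset.sum_congr rfl
        intro ω _
        simp only [pe_apply, tr_eq]) R hR
    rw [card_pairs'] at h1
    push_cast at h1
    linarith
  constructor
  · intro R hR
    apply key
    have hR0 : 0 ≤ R := by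
      refine le_trans ?_ (hR (fun _ => ∅) (fun _ => ∅) (fun _ => ∅) (fun _ => ∅) (by
        simp [SI.size]))
      exact Finset.sum_nonneg fun ω _ => mul_nonneg (hp0 ω)
        (Finset.sum_nonneg fun c _ => Nat.cast_nonneg _)
    rw [← E2_const (I := Fin (k + k)) hμ1 R]
    apply E2_mono hμ0
    intro F F'
    by_cases hG : Gd N F F'
    · rw [ind_true hG, one_mul]
      simp only [fun ω => sum_pairs (t ω) (Φ ω) F F']
      apply hR
      unfold Gd at hG
      rw [sum_halves, sum_halves] at hG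
      exact hG
    · rw [ind_false hG, zero_mul]
      exact hR0
  · intro d κ s hκ Jt hs hfree hdep
    apply key
    refine le_trans ?_ (joint_moment hμ0 hμ1 p hp0 hp1 Φ t d κ s hκ Jt hs hfree hdep)
    apply E2_mono hμ0
    intro F F'
    have h3 : 0 ≤ ∑ ω, p ω * ∑ e ∈ pairs k, ∑ c ∈ cells (tr (t ω) e),
        ind (BS (fun G => Φ ω c (fstH (fm G)) (sndH (fm G))) e.1 e.2 F F') :=
      Finset.sum_nonneg fun ω _ => mul_nonneg (hp0 ω) (Finset.sum_nonneg fun e _ =>
        Finset.sum_nonneg fun c _ => ind_nonneg _)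
    have h4 := mul_le_mul_of_nonneg_right (ind_le_one (Gd N F F')) h3
    rw [one_mul] at h4
    exact h4

end Pool.Agent.H284.PS
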