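import Pool.Agent.Run7.h284.PS.Halves

/-!
# Deciding whether two sets intersect: pair sensitivity, memory of bounded depth
-/

set_option autoImplicit false

namespace Pool.Agent.H284.PS

open Finset DomAC0 H568R2
open Pool.Agent.W959 Pool.Agent.W959.Ent Pool.Agent.TH457.EntD

/-- the choice of the parameters -/
lemma params {N w T : ℕ} (hw : 1 ≤ w) (hT : 1 ≤ T) (hN : 10 ^ 7 * (w * T) ≤ N) :
    ∃ m k : ℕ, 100 * (2 * w * T + 12) ≤ m ∧ 4000 * (k * m) ≤ N ∧ m ≤ 1400 * (w * T) ∧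
      N ≤ 8000 * (m * k) ∧ 1 ≤ k := by
  have hwT : 1 ≤ w * T := Nat.mul_pos hw hT
  obtain ⟨m, hm⟩ : ∃ m, m = 100 * (2 * w * T + 12) := ⟨_, rfl⟩
  have hm2 : m ≤ 1400 * (w * T) := by
    rw [hm]
    have : 2 * w * T = 2 * (w * T) := by ring
    omega
  have hm0 : 1200 ≤ m := by omega
  have hmn : 4000 * m ≤ N := by omega
  obtain ⟨k, hk⟩ : ∃ k, k = N / (4000 * m) := ⟨_, rfl⟩
  have hkm : k * (4000 * m) ≤ N := by rw [hk]; exact Nat.div_mul_le_self N _
  have hk1 : 1 ≤ k := by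
    rw [hk]
    exact (Nat.one_le_div_iff (by omega)).2 hmn
  refine ⟨m, k, hm.symm.le, ?_, hm2, ?_, hk1⟩
  · calc 4000 * (k * m) = k * (4000 * m) := by ring
      _ ≤ N := hkm
  · have h3 : N < 4000 * m * (k + 1) := by rw [hk]; exact Nat.lt_mul_div_succ N (by omega)
    have h5 : 4000 * m ≤ 4000 * m * k := Nat.le_mul_of_pos_right _ hk1
    have h6 : 4000 * m * (k + 1) = 4000 * m * k + 4000 * m := by ring
    have h7 : 8000 * (m * k) = 4000 * m * k + 4000 * m * k := by ring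
    omega

lemma numbers {N w T m k : ℕ} (h1 : m ≤ 1400 * (w * T)) (h2 : N ≤ 8000 * (m * k)) {R : ℝ}
    (h : (k : ℝ) ^ 2 ≤ 1700 * R) : (N : ℝ) ^ 2 ≤ 10 ^ 18 * ((w : ℝ) * T) ^ 2 * R := by
  have h3 : (N : ℝ) ≤ 8000 * (m * k) := by exact_mod_cast h2
  have hn0 : (0 : ℝ) ≤ N := Nat.cast_nonneg N
  have h4 : (N : ℝ) ^ 2 ≤ (8000 * (m * k)) ^ 2 := pow_le_pow_left₀ hn0 h3 2
  have h5 : (m : ℝ) ≤ 1400 * (w * T) := by exact_mod_cast h1
  have h6 : (m : ℝ) ^ 2 ≤ (1400 * (w * T)) ^ 2 := pow_le_pow_left₀ (Nat.cast_nonneg m) h5 2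
  have hR0 : 0 ≤ R := by
    have : (0 : ℝ) ≤ (k : ℝ) ^ 2 := by positivity
    linarith
  calc (N : ℝ) ^ 2 ≤ (8000 * (m * k)) ^ 2 := h4
    _ = 64000000 * (m : ℝ) ^ 2 * (k : ℝ) ^ 2 := by ring
    _ ≤ 64000000 * (m : ℝ) ^ 2 * (1700 * R) := by
        apply mul_le_mul_of_nonneg_left h
        positivity
    _ ≤ 64000000 * (1400 * ((w : ℝ) * T)) ^ 2 * (1700 * R) := by
        apply mul_le_mul_of_nonneg_right _ (by positivity)
        linarith
    _ = 213248000000000000 * (((w : ℝ) * T) ^ 2 * R) := by ring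
    _ ≤ 10 ^ 18 * (((w : ℝ) * T) ^ 2 * R) := by
        apply mul_le_mul_of_nonneg_right (by norm_num)
        positivity
    _ = _ := by ring

namespace SI

open Classical in
lemma right_of_good {k u w S : ℕ} {Ω : Type} [Fintype Ω] (p : Ω → ℝ) (D : Ω → DS k u w S Bool)
    (T N : ℕ) (hD : SolvesEmptiness p D T N) (X Y : Fin k → Finset (Fin u))
    (h : size X + size Y ≤ N) (i j : Fin k) :
    99 / 100 ≤ ∑ ω, if RightT T false (fun c => (D ω).cell c X Y)
      ((D ω).query i j) (Disjoint (X i) (Y j)) then p ω else 0 := by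
  obtain ⟨hp0, -, hgood⟩ := hD
  refine (hgood X Y h i j).trans ?_
  apply Finset.sum_le_sum
  intro ω _
  split_ifs with h2 h3
  · exact le_rfl
  · exfalso
    apply h3
    obtain ⟨h4, h5⟩ := h2
    refine ⟨?_, h5⟩
    rw [Finset.disjoint_iff_inter_eq_empty]
    constructor
    · intro h6
      by_contra h7
      have h8 := h4.2 (Finset.nonempty_iff_ne_empty.2 h7)
      exact absurd (h8.symm.trans h6) (by simp)
    · intro h6
      by_contra h7
      rw [Bool.not_eq_false] at h7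
      exact Finset.nonempty_iff_ne_empty.1 (h4.1 h7) h6
  · exact hp0 ω
  · exact le_rfl

/-- a cell which is not joint does not depend on one of the two sets -/
lemma free_of_not_joint {k u w S : ℕ} {W : Type} (D : DS k u w S W) (i j : Fin k) (c : Fin S)
    (hc : c ∈ cells (D.query i j)) (hcJ : c ∉ D.joint) :
    (∀ X Y Z, D.cell c (Function.update X i Z) Y = D.cell c X Y) ∨
      (∀ X Y Z, D.cell c X (Function.update Y j Z) = D.cell c X Y) := by
  classical
  by_contra hcon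
  rw [not_or] at hcon
  obtain ⟨h1, h2⟩ := hcon
  apply hcJ
  unfold DS.joint
  rw [Finset.mem_filter]
  refine ⟨Finset.mem_univ _, i, j, hc, ?_, ?_⟩
  · by_contra h3
    apply h1
    intro X Y Z
    by_contra h4
    exact h3 ⟨X, Y, Z, h4⟩
  · by_contra h3
    apply h2
    intro X Y Z
    by_contra h4
    exact h3 ⟨X, Y, Z, h4⟩

/-- **Main theorem, emptiness.** -/
theorem emptiness (N w T : ℕ) (hw : 1 ≤ w) (hT : 1 ≤ T) (hN : 10 ^ 7 * (w * T) ≤ N) :
    ∃ k u : ℕ, u ≤ 2 * 10 ^ 6 * (w * T) ^ 2 ∧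
      ∀ (S : ℕ) (Ω : Type) [Fintype Ω] (p : Ω → ℝ) (D : Ω → DS k u w S Bool),
      SolvesEmptiness p D T N →
      (∀ R : ℝ, (∀ X Y X' Y' : Fin k → Finset (Fin u),
          size X + size Y + (size X' + size Y') ≤ N →
          ∑ ω, p ω * ∑ c, (((D ω).sensitive X Y X' Y' c).card : ℝ) ≤ R) →
        (N : ℝ) ^ 2 ≤ 10 ^ 18 * ((w : ℝ) * T) ^ 2 * R) ∧
      (∀ d κ s : ℕ, N ≤ 2 ^ κ → (∀ ω, (D ω).joint.card ≤ s) →
        (∀ ω, (D ω).JointBoundedDepth d (2 ^ κ)) →
        (N : ℝ) ^ 2 ≤ 10 ^ 18 * ((w : ℝ) * T) ^ 2 *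
          (s * ((w : ℝ) ^ 2 * (72 * κ + 24 * d + 24 : ℝ) ^ (2 * d + 2)))) := by
  classical
  obtain ⟨m, k, hm, hkm, hm2, hNk, hk1⟩ := params hw hT hN
  refine ⟨k, m ^ 2, ?_, ?_⟩
  · calc m ^ 2 ≤ (1400 * (w * T)) ^ 2 := Nat.pow_le_pow_left hm2 2
      _ = 1960000 * (w * T) ^ 2 := by ring
      _ ≤ _ := Nat.mul_le_mul_right _ (by norm_num)
  intro S Ω _ p D hD
  have h := halves hm rfl hkm p hD.1 hD.2.1 (fun ω c => (D ω).cell c) false
    (fun ω i j => (D ω).query i j) (by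
      intro X Y hXY i j
      refine (right_of_good p D T N hD X Y hXY i j).trans (le_of_eq ?_)
      apply Finset.sum_congr rfl
      intro ω _
      congr)
  constructor
  · intro R hR
    apply numbers hm2 hNk
    apply h.1 R
    intro X Y X' Y' hs
    refine le_trans (le_of_eq ?_) (hR X Y X' Y' hs)
    apply Finset.sum_congr rfl
    intro ω _
    congr 1
    apply Finset.sum_congr rfl
    intro c _
    congr 1
    unfold DS.sensitive BH
    congr
  · intro d κ s hκ hs hdep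
    apply numbers hm2 hNk
    apply h.2 d κ s _ (fun ω => (D ω).joint) hs _ hdep
    · have h1 : k + k ≤ 4000 * (k * m) := by nlinarith
      omega
    · intro ω i j c hc hcJ
      exact free_of_not_joint (D ω) i j c hc hcJ

end SI

end Pool.Agent.H284.PS
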