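import Pool.Agent.Run7.h284.PS.ListPair
import Pool.Agent.Run7.h284.PS.SIMain

/-!
# Listing intersections: pair sensitivity, memory of bounded depth
-/

set_option autoImplicit false

namespace Pool.Agent.H284.PS

open Finset DomAC0 H568R2
open Pool.Agent.W959 Pool.Agent.W959.Ent Pool.Agent.TH457.EntD

/-- the failures and the sensitive cells -/
lemma fail_le {K n w S : ℕ} {W : Type} {μ : (Fin n → Bool) → ℝ} (hμ0 : ∀ a, 0 ≤ μ a)
    {Ω : Type} [Fintype Ω] (p : Ω → ℝ) (hp0 : ∀ ω, 0 ≤ p ω)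
    (Ψ : Ω → Fin S → (Fin K → Fin n → Bool) → Fin (2 ^ w)) (t : Ω → QTree S (Fin (2 ^ w)) W)
    {i j : Fin K} (hij : i ≠ j) :
    E2 μ (fun F F' : Fin K → Fin n → Bool => ∑ ω, p ω * ∑ c ∈ cells (t ω),
      ind (simv (Ψ ω c) i j F F' ≠ Ψ ω c F)) ≤
    3 * E2 μ (fun F F' : Fin K → Fin n → Bool => ∑ ω, p ω * ∑ c ∈ cells (t ω),
      ind (BS (Ψ ω c) i j F F')) := by
  obtain ⟨Y, hY⟩ : ∃ Y, Y = E2 μ (fun F F' : Fin K → Fin n → Bool => ∑ ω, p ω *
    ∑ c ∈ cells (t ω), ind (BS (Ψ ω c) i j F F')) := ⟨_, rfl⟩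
  have hH : ∀ l : Fin K, E2 μ (fun F F' : Fin K → Fin n → Bool => ∑ ω, p ω *
      ∑ c ∈ cells (t ω), ind (BS (Ψ ω c) i j (Function.update F l (F' l))
        (Function.update F' l (F l)))) = Y := by
    intro l
    rw [hY]
    exact E2_swap l (fun F F' : Fin K → Fin n → Bool => ∑ ω, p ω *
      ∑ c ∈ cells (t ω), ind (BS (Ψ ω c) i j F F'))
  have h1 : E2 μ (fun F F' : Fin K → Fin n → Bool => ∑ ω, p ω * ∑ c ∈ cells (t ω),
      ind (simv (Ψ ω c) i j F F' ≠ Ψ ω c F)) ≤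
      E2 μ (fun F F' : Fin K → Fin n → Bool =>
        ∑ ω, p ω * ∑ c ∈ cells (t ω), ind (BS (Ψ ω c) i j F F') +
        (∑ ω, p ω * ∑ c ∈ cells (t ω), ind (BS (Ψ ω c) i j (Function.update F i (F' i))
            (Function.update F' i (F i))) +
        ∑ ω, p ω * ∑ c ∈ cells (t ω), ind (BS (Ψ ω c) i j (Function.update F j (F' j))
            (Function.update F' j (F j))))) := by
    apply E2_mono hμ0
    intro F F'
    rw [← Finset.sum_add_distrib, ← Finset.sum_add_distrib]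
    apply Finset.sum_le_sum
    intro ω _
    rw [← mul_add, ← mul_add]
    apply mul_le_mul_of_nonneg_left _ (hp0 ω)
    rw [← Finset.sum_add_distrib, ← Finset.sum_add_distrib]
    apply Finset.sum_le_sum
    intro c _
    have i1 := ind_nonneg (BS (Ψ ω c) i j F F')
    have i2 := ind_nonneg (BS (Ψ ω c) i j (Function.update F i (F' i))
      (Function.update F' i (F i)))
    have i3 := ind_nonneg (BS (Ψ ω c) i j (Function.update F j (F' j))
      (Function.update F' j (F j)))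
    by_cases h2 : simv (Ψ ω c) i j F F' ≠ Ψ ω c F
    · rw [ind_true h2]
      rcases simv_fail hij h2 with h3 | h3 | h3
      · rw [ind_true h3]
        linarith
      · rw [ind_true h3]
        linarith
      · rw [ind_true h3]
        linarith
    · rw [ind_false h2]
      linarith
  rw [E2_add, E2_add, hH i, hH j, ← hY] at h1
  rw [← hY]
  linarith

open Classical in
/-- **Families in two halves, lists.** -/
theorem list_halves {C T : ℝ} {k w m u n S : ℕ} (hC : 1 ≤ C) (hw : 1 ≤ w) (hT : 0 ≤ T)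
    (hm : 1500 * (C * w) ≤ m) (hu : 300 ≤ u) (hTu : 300 * T ≤ u) (hn : n = m ^ 2 * u)
    {Ω : Type} [Fintype Ω] (p : Ω → ℝ) (hp0 : ∀ ω, 0 ≤ p ω) (hp1 : ∑ ω, p ω = 1)
    (Φ : Ω → Fin S → (Fin k → Finset (Fin n)) → (Fin k → Finset (Fin n)) → Fin (2 ^ w))
    (t : Ω → Fin k → Fin k → QTree S (Fin (2 ^ w)) (Finset (Fin n)))
    (hgood : ∀ X Y : Fin k → Finset (Fin n), ∀ i j, 1 / 2 ≤
      ∑ ω, if (t ω i j).run (fun c => Φ ω c X Y) = X i ∩ Y j ∧
        ((t ω i j).cost (fun c => Φ ω c X Y) : ℝ) ≤ C * (T + (X i ∩ Y j).card)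
        then p ω else 0)
    (R : ℝ) (hR : E2 (mu (1 / (m : ℝ)) n) (fun F F' : Fin (k + k) → Fin n → Bool => ∑ ω, p ω *
      ∑ e ∈ pairs k, ∑ c ∈ cells (tr (t ω) e),
        ind (BS (fun G => Φ ω c (fstH (fm G)) (sndH (fm G))) e.1 e.2 F F')) ≤ R) :
    (k : ℝ) ^ 2 * ((u : ℝ) / (4000 * (w * C))) ≤ 3 * R := by
  have hw' : (1 : ℝ) ≤ w := by exact_mod_cast hw
  have hC0 : 0 < C := by linarith
  have hCw : 1 ≤ C * w := by nlinarith
  have hm' : (1500 : ℝ) ≤ m := by linarith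
  have hinv0 : 0 < 1 / (m : ℝ) := by positivity
  have hr1 : 0 ≤ 1 - 1 / (m : ℝ) := by
    have : 1 / (m : ℝ) ≤ 1 := by
      rw [div_le_one (by linarith)]; linarith
    linarith
  have hμ0 := mu_nonneg hinv0.le hr1 n
  have hμ1 := sum_mu (r := 1 / (m : ℝ)) n
  -- one pair
  have hpair : ∀ e ∈ pairs k, (u : ℝ) / (4000 * (w * C)) ≤
      3 * E2 (mu (1 / (m : ℝ)) n) (fun F F' : Fin (k + k) → Fin n → Bool => ∑ ω, p ω *
        ∑ c ∈ cells (tr (t ω) e),
          ind (BS (fun G => Φ ω c (fstH (fm G)) (sndH (fm G))) e.1 e.2 F F')) := by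
    intro e he
    simp only [pairs, Finset.mem_map, Finset.mem_univ, true_and] at he
    obtain ⟨⟨i, j⟩, rfl⟩ := he
    have hij : Fin.castAdd k i ≠ Fin.natAdd k j := by
      intro h
      have h' : (Fin.castAdd k i).val = (Fin.natAdd k j).val := congrArg Fin.val h
      simp at h'
      omega
    simp only [pe_apply, tr_eq]
    refine le_trans ?_ (fail_le hμ0 p hp0
      (fun ω c G => Φ ω c (fstH (fm G)) (sndH (fm G))) (fun ω => t ω i j) hij)
    rw [← Ex_const (I := Fin (k + k)) hμ1 ((u : ℝ) / (4000 * (w * C)))]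
    unfold E2
    apply Ex_mono hμ0
    intro F'
    have h1 := EE_resample (r := 1 / (m : ℝ)) (K := k + k) (n := n) (Fin.castAdd k i)
      (Fin.natAdd k j) (fun F => ∑ ω, p ω * ∑ c ∈ cells (t ω i j),
        ind (simv (fun G => Φ ω c (fstH (fm G)) (sndH (fm G))) (Fin.castAdd k i)
          (Fin.natAdd k j) F F' ≠ Φ ω c (fstH (fm F)) (sndH (fm F))))
    have h2 : (u : ℝ) / (4000 * (w * C)) ≤ EE (1 / (m : ℝ)) (k + k) n
        (fun F => ∑ ω, p ω * ∑ c ∈ cells (t ω i j),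
        ind (simv (fun G => Φ ω c (fstH (fm G)) (sndH (fm G))) (Fin.castAdd k i)
          (Fin.natAdd k j) F F' ≠ Φ ω c (fstH (fm F)) (sndH (fm F)))) := by
      rw [h1, ← EE_const (r := 1 / (m : ℝ)) (K := k + k) (n := n)
        ((u : ℝ) / (4000 * (w * C)))]
      apply EE_mono hinv0.le hr1
      intro G
      apply list_pair hC hw hT hm hu hTu hn p hp0 hp1
        (fun ω c x y => Φ ω c (fstH (fm (upd G (Fin.castAdd k i) (Fin.natAdd k j) x y)))
          (sndH (fm (upd G (Fin.castAdd k i) (Fin.natAdd k j) x y))))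
        (F' (Fin.castAdd k i)) (F' (Fin.natAdd k j))
        (fun ω c x y => simv (fun G => Φ ω c (fstH (fm G)) (sndH (fm G))) (Fin.castAdd k i)
          (Fin.natAdd k j) (upd G (Fin.castAdd k i) (Fin.natAdd k j) x y) F') _
        (fun ω => t ω i j)
      · intro x y
        have h3 := hgood (fstH (fm (upd G (Fin.castAdd k i) (Fin.natAdd k j) x y)))
          (sndH (fm (upd G (Fin.castAdd k i) (Fin.natAdd k j) x y))) i j
        have e1 : fstH (fm (upd G (Fin.castAdd k i) (Fin.natAdd k j) x y)) i = Ent.setOf x := by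
          show Ent.setOf (upd G (Fin.castAdd k i) (Fin.natAdd k j) x y (Fin.castAdd k i)) = _
          rw [upd_left G hij]
        have e2 : sndH (fm (upd G (Fin.castAdd k i) (Fin.natAdd k j) x y)) j = Ent.setOf y := by
          show Ent.setOf (upd G (Fin.castAdd k i) (Fin.natAdd k j) x y (Fin.natAdd k j)) = _
          rw [upd_right]
        rw [e1, e2] at h3
        exact h3
      · intro ω c x y
        unfold simv
        rw [upd_eq_right, upd_eq_left G hij, upd_eq_right]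
        split_ifs <;> rfl
    exact h2
  have h1 := Finset.card_nsmul_le_sum _ _ _ hpair
  rw [nsmul_eq_mul, ← Finset.mul_sum, ← E2_sum, card_pairs'] at h1
  have h2 : E2 (mu (1 / (m : ℝ)) n) (fun F F' : Fin (k + k) → Fin n → Bool =>
      ∑ e ∈ pairs k, ∑ ω, p ω * ∑ c ∈ cells (tr (t ω) e),
        ind (BS (fun G => Φ ω c (fstH (fm G)) (sndH (fm G))) e.1 e.2 F F')) ≤ R := by
    refine le_trans (le_of_eq ?_) hR
    congr 1
    funext F F'
    rw [Finset.sum_comm]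
    apply Finset.sum_congr rfl
    intro ω _
    rw [Finset.mul_sum]
  push_cast at h1
  have h3 := mul_le_mul_of_nonneg_left h2 (show (0 : ℝ) ≤ 3 by norm_num)
  calc (k : ℝ) ^ 2 * ((u : ℝ) / (4000 * (w * C))) =
        k * k * ((u : ℝ) / (4000 * (w * C))) := by ring
    _ ≤ _ := h1
    _ ≤ _ := h3

namespace SI

lemma size_le {k u : ℕ} (X : Fin k → Finset (Fin u)) : size X ≤ k * u := by
  unfold size
  calc ∑ i, (X i).card ≤ ∑ _i : Fin k, u := by
        apply Finset.sum_le_sum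
        intro i _
        exact (Finset.card_le_univ _).trans (by simp)
    _ = k * u := by simp

/-- **Main theorem, listing.** -/
theorem listing (N w : ℕ) (C T : ℝ) (hw : 1 ≤ w) (hC : 1 ≤ C) (hT : 1 ≤ T)
    (hN : 10 ^ 10 * (C * w) ^ 2 * T ≤ N) :
    ∃ k u : ℕ, 2 * k * u ≤ N ∧ ∀ (S : ℕ) (Ω : Type) [Fintype Ω] (p : Ω → ℝ)
      (D : Ω → DS k u w S (Finset (Fin u))), SolvesListing p D C T N →
      (∀ R : ℝ, (∀ X Y X' Y' : Fin k → Finset (Fin u),
          ∑ ω, p ω * ∑ c, (((D ω).sensitive X Y X' Y' c).card : ℝ) ≤ R) →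
        (N : ℝ) ^ 2 ≤ 10 ^ 21 * (C ^ 5 * w ^ 5) * T * R) ∧
      (∀ d κ s : ℕ, N ≤ 2 ^ κ → (∀ ω, (D ω).joint.card ≤ s) →
        (∀ ω, (D ω).JointBoundedDepth d (2 ^ κ)) →
        (N : ℝ) ^ 2 ≤ 10 ^ 21 * (C ^ 5 * w ^ 5) * T *
          (s * ((w : ℝ) ^ 2 * (72 * κ + 24 * d + 24 : ℝ) ^ (2 * d + 2)))) := by
  classical
  have hw' : (1 : ℝ) ≤ w := by exact_mod_cast hw
  have hCw : 1 ≤ C * w := by nlinarith
  obtain ⟨x, hx⟩ : ∃ x : ℝ, x = C * w := ⟨_, rfl⟩
  have hx1 : 1 ≤ x := by rw [hx]; exact hCw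
  obtain ⟨m, hm1, hm2⟩ : ∃ m : ℕ, 1500 * x ≤ m ∧ (m : ℝ) ≤ 1501 * x := by
    refine ⟨⌈1500 * x⌉₊, Nat.le_ceil _, ?_⟩
    have := Nat.ceil_lt_add_one (show 0 ≤ 1500 * x by linarith)
    linarith
  obtain ⟨u, hu1, hu2, hu3⟩ : ∃ u : ℕ, 300 ≤ u ∧ 300 * T ≤ u ∧ (u : ℝ) ≤ 600 * T := by
    refine ⟨300 * ⌈T⌉₊, ?_, ?_, ?_⟩
    · have : 1 ≤ ⌈T⌉₊ := Nat.one_le_ceil_iff.2 (by linarith)
      omega
    · push_cast
      have := Nat.le_ceil T
      linarith
    · push_cast
      have := Nat.ceil_lt_add_one (show 0 ≤ T by linarith)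
      linarith
  have hu' : (300 : ℝ) ≤ u := by exact_mod_cast hu1
  have hm' : (1500 : ℝ) ≤ m := by linarith
  obtain ⟨n, hn⟩ : ∃ n, n = m ^ 2 * u := ⟨_, rfl⟩
  have hn' : (n : ℝ) = (m : ℝ) ^ 2 * u := by rw [hn]; push_cast; ring
  have hn0 : 0 < (n : ℝ) := by rw [hn']; positivity
  have hm2' : (m : ℝ) ^ 2 ≤ (1501 * x) ^ 2 := pow_le_pow_left₀ (by linarith) hm2 2
  have h2n : 2 * (n : ℝ) ≤ N := by
    rw [← hx] at hN
    refine le_trans ?_ hN
    rw [hn']
    calc 2 * ((m : ℝ) ^ 2 * u) ≤ 2 * ((1501 * x) ^ 2 * (600 * T)) := by gcongr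
      _ ≤ 10 ^ 10 * x ^ 2 * T := by
        have : 0 ≤ x ^ 2 * T := by positivity
        nlinarith
  have h2n' : 2 * n ≤ N := by exact_mod_cast h2n
  have hnpos : 0 < n := by exact_mod_cast hn0
  obtain ⟨k, hk⟩ : ∃ k, k = N / (2 * n) := ⟨_, rfl⟩
  have hk1 : 1 ≤ k := by
    rw [hk]
    exact (Nat.one_le_div_iff (by omega)).2 h2n'
  have hkn : k * (2 * n) ≤ N := by rw [hk]; exact Nat.div_mul_le_self N _
  have hkN : N ≤ 4 * (n * k) := by
    have h3 : N < 2 * n * (k + 1) := by rw [hk]; exact Nat.lt_mul_div_succ N (by omega)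
    have h5 : 2 * n ≤ 2 * n * k := Nat.le_mul_of_pos_right _ hk1
    have h6 : 2 * n * (k + 1) = 2 * n * k + 2 * n := by ring
    have h7 : 4 * (n * k) = 2 * n * k + 2 * n * k := by ring
    omega
  refine ⟨k, n, ?_, ?_⟩
  · calc 2 * k * n = k * (2 * n) := by ring
      _ ≤ N := hkn
  intro S Ω _ p D hD
  obtain ⟨hp0, hp1, hgood⟩ := hD
  have hinv0 : 0 < 1 / (m : ℝ) := by positivity
  have hr1 : 0 ≤ 1 - 1 / (m : ℝ) := by
    have : 1 / (m : ℝ) ≤ 1 := by
      rw [div_le_one (by linarith)]; linarith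
    linarith
  have hμ0 := mu_nonneg hinv0.le hr1 n
  have hμ1 := sum_mu (r := 1 / (m : ℝ)) n
  have key : ∀ R : ℝ, E2 (mu (1 / (m : ℝ)) n) (fun F F' : Fin (k + k) → Fin n → Bool =>
      ∑ ω, p ω * ∑ e ∈ pairs k, ∑ c ∈ cells (tr (fun i j => (D ω).query i j) e),
        ind (BS (fun G => (D ω).cell c (fstH (fm G)) (sndH (fm G))) e.1 e.2 F F')) ≤ R →
      (N : ℝ) ^ 2 ≤ 10 ^ 21 * (C ^ 5 * w ^ 5) * T * R := by
    intro R hR
    have h1 := list_halves (k := k) hC hw (by linarith) (by rw [← hx]; exact hm1) hu1 hu2 hn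
      p hp0 hp1 (fun ω c => (D ω).cell c) (fun ω i j => (D ω).query i j) (by
        intro X Y i j
        have h2 := hgood X Y (by
          have h3 := size_le X
          have h4 := size_le Y
          have h5 : k * n + k * n = k * (2 * n) := by ring
          omega) i j
        refine h2.trans (le_of_eq ?_)
        apply Finset.sum_congr rfl
        intro ω _
        unfold DS.Lists
        congr) R hR
    have hw0 : (0 : ℝ) < w := by linarith
    have hC0 : 0 < C := by linarith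
    have hu0 : (0 : ℝ) < u := by linarith
    have h2 : (N : ℝ) ≤ 4 * (n * k) := by exact_mod_cast hkN
    have h3 : (N : ℝ) ^ 2 ≤ (4 * (n * k)) ^ 2 := pow_le_pow_left₀ (Nat.cast_nonneg N) h2 2
    have h4 : (k : ℝ) ^ 2 * u ≤ 12000 * (w * C) * R := by
      have e1 : (k : ℝ) ^ 2 * ((u : ℝ) / (4000 * (w * C))) =
          (k : ℝ) ^ 2 * u / (4000 * (w * C)) := by
        field_simp
      rw [e1, div_le_iff₀ (by positivity)] at h1
      linarith
    have hR0 : 0 ≤ R := by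
      have : 0 ≤ (k : ℝ) ^ 2 * ((u : ℝ) / (4000 * (w * C))) := by positivity
      linarith
    have hm4 : (m : ℝ) ^ 4 ≤ (1501 * x) ^ 4 := pow_le_pow_left₀ (by linarith) hm2 4
    calc (N : ℝ) ^ 2 ≤ (4 * (n * k)) ^ 2 := h3
      _ = 16 * (m : ℝ) ^ 4 * u * ((k : ℝ) ^ 2 * u) := by rw [hn']; ring
      _ ≤ 16 * (1501 * x) ^ 4 * (600 * T) * (12000 * (w * C) * R) := by gcongr
      _ = (16 * 1501 ^ 4 * 600 * 12000) * (x ^ 4 * C * w * T * R) := by ring
      _ ≤ 10 ^ 21 * (x ^ 4 * C * w * T * R) := by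
          have : 0 ≤ x ^ 4 * C * w * T * R := by positivity
          nlinarith
      _ = _ := by rw [hx]; ring
  constructor
  · intro R hR
    apply key
    rw [← E2_const (I := Fin (k + k)) hμ1 R]
    apply E2_mono hμ0
    intro F F'
    simp only [fun ω => sum_pairs (fun i j => (D ω).query i j) (fun c => (D ω).cell c) F F']
    refine le_trans (le_of_eq ?_) (hR (fstH (fm F)) (sndH (fm F)) (fstH (fm F')) (sndH (fm F')))
    apply Finset.sum_congr rfl
    intro ω _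
    congr 1
    apply Finset.sum_congr rfl
    intro c _
    congr 1
    unfold DS.sensitive BH
    congr
  · intro d κ s hκ hs hdep
    apply key
    apply joint_moment hμ0 hμ1 p hp0 hp1 (fun ω c => (D ω).cell c)
      (fun ω i j => (D ω).query i j) d κ s _ (fun ω => (D ω).joint) hs
    · intro ω i j c hc hcJ
      exact free_of_not_joint (D ω) i j c hc hcJ
    · exact hdep
    · have h1 : k + k ≤ k * (2 * n) := by nlinarith
      omega

end SI

end Pool.Agent.H284.PS
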