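import Pool.Agent.Run7.h284.PS.Dev

/-!
# Lists of intersections: one pair
-/

set_option autoImplicit false

namespace Pool.Agent.H284.PS

open Finset DomAC0 H568R2
open Pool.Agent.W959 Pool.Agent.W959.Ent

lemma cells_prune {S : ℕ} {V R : Type} [Fintype V] (t : QTree S V R) :
    ∀ known : Fin S → Option V, cells (t.prune known) ⊆ cells t := by
  induction t with
  | out a => intro known; simp [QTree.prune]
  | probe c next ih =>
    intro known
    cases hc : known c with
    | some v =>
      have e : (QTree.probe c next).prune known = (next v).prune known := by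
        simp [QTree.prune, hc]
      rw [e]
      refine (ih v known).trans ?_
      intro c' hc'
      unfold cells
      exact Finset.mem_insert_of_mem (Finset.mem_biUnion.2 ⟨v, Finset.mem_univ _, hc'⟩)
    | none =>
      have e : (QTree.probe c next).prune known =
          .probe c fun v => (next v).prune (Function.update known c (some v)) := by
        simp [QTree.prune, hc]
      rw [e]
      intro c' hc'
      unfold cells at hc' ⊢
      rcases Finset.mem_insert.1 hc' with h | h
      · rw [h]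
        exact Finset.mem_insert_self _ _
      · obtain ⟨v, -, hv⟩ := Finset.mem_biUnion.1 h
        exact Finset.mem_insert_of_mem (Finset.mem_biUnion.2 ⟨v, Finset.mem_univ _, ih v _ hv⟩)

lemma bad_mono {S : ℕ} {V R : Type} [Fintype V] (t : QTree S V R) (mem : Fin S → V)
    {P P' : Fin S → Prop} (h : ∀ c ∈ cells t, P c → P' c) : t.bad mem P ≤ t.bad mem P' := by
  classical
  induction t with
  | out a => exact le_rfl
  | probe c next ih =>
    unfold QTree.bad
    have h1 := ih (mem c) (fun c' hc' => h c' (by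
      unfold cells
      exact Finset.mem_insert_of_mem (Finset.mem_biUnion.2 ⟨mem c, Finset.mem_univ _, hc'⟩)))
    have h2 := h c (by unfold cells; exact Finset.mem_insert_self _ _)
    by_cases h3 : P c
    · rw [if_pos h3, if_pos (h2 h3)]
      omega
    · rw [if_neg h3]
      omega

open Classical in
lemma bad_prune {S : ℕ} {V R : Type} [Fintype V] (t : QTree S V R) (mem : Fin S → V)
    (P : Fin S → Prop) :
    (t.prune fun _ => none).bad mem P ≤ ((cells t).filter P).card := by
  have h1 := bad_mono (t.prune fun _ => none) mem (P := P) (P' := fun c => P c ∧ c ∈ cells t)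
    (fun c hc hP => ⟨hP, cells_prune t _ hc⟩)
  have h2 := (QTree.prune_spec mem (fun c => P c ∧ c ∈ cells t) t (fun _ => none)
    (fun c v h => by simp at h)).2.2
  refine h1.trans (h2.trans ?_)
  rw [← Set.ncard_coe_finset]
  apply Set.ncard_le_ncard _ (Set.toFinite _)
  rintro c ⟨⟨h3, h4⟩, -⟩
  rw [Finset.mem_coe, Finset.mem_filter]
  exact ⟨h4, h3⟩

open Classical in
/-- **One pair, lists.** -/
theorem list_pair {C T : ℝ} {w m u n S : ℕ} (hC : 1 ≤ C) (hw : 1 ≤ w) (hT : 0 ≤ T)
    (hm : 1500 * (C * w) ≤ m) (hu : 300 ≤ u) (hTu : 300 * T ≤ u) (hn : n = m ^ 2 * u)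
    {Ω : Type} [Fintype Ω] (p : Ω → ℝ) (hp0 : ∀ ω, 0 ≤ p ω) (hp1 : ∑ ω, p ω = 1)
    (M : Ω → Fin S → (Fin n → Bool) → (Fin n → Bool) → Fin (2 ^ w)) (x0 y0 : Fin n → Bool)
    (g : Ω → Fin S → (Fin n → Bool) → (Fin n → Bool) → Fin (2 ^ w))
    (hg : ∀ ω c x y, g ω c x y = if M ω c x y0 = M ω c x0 y0 then M ω c x0 y else M ω c x y0)
    (t : Ω → QTree S (Fin (2 ^ w)) (Finset (Fin n)))
    (hgood : ∀ x y, 1 / 2 ≤ ∑ ω, if (t ω).run (fun c => M ω c x y) = Ent.setOf x ∩ Ent.setOf y ∧
      ((t ω).cost (fun c => M ω c x y) : ℝ) ≤ C * (T + (Ent.setOf x ∩ Ent.setOf y).card)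
      then p ω else 0) :
    (u : ℝ) / (4000 * (w * C)) ≤ ex2 (1 / (m : ℝ)) n (fun x y => ∑ ω, p ω *
      ∑ c ∈ cells (t ω), ind (g ω c x y ≠ M ω c x y)) := by
  have hw' : (1 : ℝ) ≤ w := by exact_mod_cast hw
  have hu' : (300 : ℝ) ≤ u := by exact_mod_cast hu
  have hC0 : 0 < C := by linarith
  have hCw : 1 ≤ C * w := by nlinarith
  have hm' : (1500 : ℝ) ≤ m := by linarith
  have hm10 : 10 ≤ m := by
    have : (10 : ℝ) ≤ m := by linarith
    exact_mod_cast this
  have hm0 : (0 : ℝ) < m := by linarith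
  have hinv : 1 / (m : ℝ) ≤ 1 / 10 := by
    apply one_div_le_one_div_of_le <;> linarith
  have hinv0 : 0 < 1 / (m : ℝ) := by positivity
  have hr1 : 0 ≤ 1 - 1 / (m : ℝ) := by linarith
  obtain ⟨d, hd⟩ : ∃ d, d = ⌊C * (T + 4 * u)⌋₊ := ⟨_, rfl⟩
  have hd1 : (d : ℝ) ≤ C * (T + 4 * u) := by rw [hd]; exact Nat.floor_le (by positivity)
  obtain ⟨a, ha⟩ : ∃ a, a = ⌊(u : ℝ) / (500 * w * C)⌋₊ := ⟨_, rfl⟩
  have ha1 : (a : ℝ) ≤ u / (500 * w * C) := by rw [ha]; exact Nat.floor_le (by positivity)
  have ha2 : (u : ℝ) / (500 * w * C) ≤ a + 1 := by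
    rw [ha]; exact (Nat.lt_floor_add_one _).le
  have ha0 : (0 : ℝ) < a + 1 := by positivity
  let q : Ω → Fin S → (Fin n → Bool) → (Fin n → Bool) → Fin (2 ^ w) × Fin (2 ^ w) :=
    fun ω c x y => (M ω c x y0, M ω c x0 y)
  have hcard : Fintype.card (Fin (2 ^ w) × Fin (2 ^ w)) ≤ 2 ^ (3 * w) := by
    rw [Fintype.card_prod, Fintype.card_fin, ← pow_add]
    exact Nat.pow_le_pow_right (by norm_num) (by omega)
  let E : Ω → (Fin n → Bool) → (Fin n → Bool) → Prop := fun ω x y =>
    Dev (n - 4 * u) (g ω) ((t ω).prune fun _ => none) d a x y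
  have hE : ∀ ω, ex2 (1 / (m : ℝ)) n (fun x y => ind (E ω x y)) ≤ 1 / 8 := by
    intro ω
    have h1 := dev_bound hm10 n (3 * w) w S (n - 4 * u) (g ω) hcard (q ω)
      (fun c x x' y y' l h h' => by
        simp only [q] at h h' ⊢
        rw [← h] at h'
        rw [← h, Prod.mk.injEq]
        rw [Prod.mk.injEq] at h'
        exact ⟨rfl, h'.2⟩)
      (fun c x x' y y' h => by
        simp only [q, Prod.mk.injEq] at h
        rw [hg, hg, h.1, h.2])
      (ε := 1 / (500 * C)) (by positivity) (by
        rw [div_le_one (by positivity)]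
        linarith) ((t ω).prune fun _ => none) d a (f := fun _ => 1) (h := fun _ => 1)
      (fun _ => zero_le_one) (fun _ => zero_le_one)
    have hn1 : nrm m n (fun _ => 1) = 1 := by
      simp only [nrm, Real.one_rpow, ex_const]
    rw [hn1, mul_one, mul_one] at h1
    simp only [one_mul] at h1
    refine h1.trans ?_
    have := numeric (T := T) (d := d) (b := w) (m := m) (u := u) hC hw hw hm hu hTu hd1 ha1
    rw [hn]
    exact this
  -- the number of failing cells
  have hcnt : ∀ ω x y, ∑ c ∈ cells (t ω), ind (g ω c x y ≠ M ω c x y) =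
      (((cells (t ω)).filter fun c => M ω c x y ≠ g ω c x y).card : ℝ) := by
    intro ω x y
    rw [Finset.card_filter]
    push_cast
    apply Finset.sum_congr rfl
    intro c _
    by_cases h : M ω c x y = g ω c x y
    · rw [ind_false (fun h' => h' h.symm), if_neg (fun h' => h' h)]
    · rw [ind_true (fun h' => h h'.symm), if_pos h]
  -- pointwise bound
  have hpt : ∀ x y : Fin n → Bool, (1 : ℝ) / 2 ≤ ∑ ω, p ω * (ind (E ω x y) +
      1 / (a + 1) * ∑ c ∈ cells (t ω), ind (g ω c x y ≠ M ω c x y)) +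
      1 / (4 * (u : ℝ)) * ((Ent.setOf x ∩ Ent.setOf y).card : ℝ) := by
    intro x y
    have hterm : ∀ ω, 0 ≤ ind (E ω x y) +
      1 / ((a : ℝ) + 1) * ∑ c ∈ cells (t ω), ind (g ω c x y ≠ M ω c x y) := by
      intro ω
      have := ind_nonneg (E ω x y)
      have h2 : 0 ≤ ∑ c ∈ cells (t ω), ind (g ω c x y ≠ M ω c x y) :=
        Finset.sum_nonneg fun c _ => ind_nonneg _
      positivity
    by_cases hc : (Ent.setOf x ∩ Ent.setOf y).card ≤ 4 * u
    · have h1 := hgood x y
      have h2 : 0 ≤ 1 / (4 * (u : ℝ)) * ((Ent.setOf x ∩ Ent.setOf y).card : ℝ) := by positivity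
      refine h1.trans (le_trans ?_ (le_add_of_nonneg_right h2))
      apply Finset.sum_le_sum
      intro ω _
      split_ifs with h3
      · have h4 : (1 : ℝ) ≤ ind (E ω x y) +
            1 / (a + 1) * ∑ c ∈ cells (t ω), ind (g ω c x y ≠ M ω c x y) := by
          rw [hcnt]
          by_cases hown : ((cells (t ω)).filter fun c => M ω c x y ≠ g ω c x y).card ≤ a
          · rw [ind_true]
            · have : 0 ≤ 1 / ((a : ℝ) + 1) *
                (((cells (t ω)).filter fun c => M ω c x y ≠ g ω c x y).card : ℝ) := by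
                positivity
              linarith
            · obtain ⟨h4, h5⟩ := h3
              obtain ⟨g1, g2, -⟩ := QTree.prune_spec (fun c => M ω c x y)
                (fun _ => True) (t ω) (fun _ => none) (fun c v h => by simp at h)
              apply dev_of_run
              · refine le_trans g2 ?_
                rw [hd]
                apply Nat.le_floor
                refine le_trans h5 ?_
                have : ((Ent.setOf x ∩ Ent.setOf y).card : ℝ) ≤ 4 * u := by exact_mod_cast hc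
                gcongr
              · refine (bad_prune (t ω) (fun c => M ω c x y)
                  (fun c => M ω c x y ≠ g ω c x y)).trans (le_trans (le_of_eq ?_) hown)
                congr
              · rw [g1, h4]
                exact conj_eq_toBits x y
              · rw [conj_eq_toBits]
                have := nz_toBits (Ent.setOf x ∩ Ent.setOf y)
                omega
          · push Not at hown
            have h6 : (1 : ℝ) ≤ 1 / (a + 1) *
                (((cells (t ω)).filter fun c => M ω c x y ≠ g ω c x y).card : ℝ) := by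
              rw [one_div, inv_mul_eq_div, le_div_iff₀ ha0, one_mul]
              exact_mod_cast hown
            have := ind_nonneg (E ω x y)
            linarith
        calc p ω = p ω * 1 := (mul_one _).symm
          _ ≤ _ := mul_le_mul_of_nonneg_left h4 (hp0 ω)
      · exact mul_nonneg (hp0 ω) (hterm ω)
    · push Not at hc
      have h1 : (1 : ℝ) ≤ 1 / (4 * (u : ℝ)) * ((Ent.setOf x ∩ Ent.setOf y).card : ℝ) := by
        rw [one_div, inv_mul_eq_div, le_div_iff₀ (by positivity), one_mul]
        exact_mod_cast hc.le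
      have h2 : 0 ≤ ∑ ω, p ω * (ind (E ω x y) +
          1 / (a + 1) * ∑ c ∈ cells (t ω), ind (g ω c x y ≠ M ω c x y)) :=
        Finset.sum_nonneg fun ω _ => mul_nonneg (hp0 ω) (hterm ω)
      linarith
  have e1 := ex2_mono hinv0.le hr1 n hpt
  rw [ex2_const, ex2_add, ex2_mul, ex2_card] at e1
  have e3 : 1 / (4 * (u : ℝ)) * ((n : ℝ) * (1 / (m : ℝ)) ^ 2) = 1 / 4 := by
    rw [hn]
    push_cast
    field_simp
  rw [e3] at e1
  obtain ⟨Z, hZ⟩ : ∃ Z, Z = ex2 (1 / (m : ℝ)) n (fun x y => ∑ ω, p ω *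
      ∑ c ∈ cells (t ω), ind (g ω c x y ≠ M ω c x y)) := ⟨_, rfl⟩
  have h2 : ex2 (1 / (m : ℝ)) n (fun x y => ∑ ω, p ω * (ind (E ω x y) +
      1 / (a + 1) * ∑ c ∈ cells (t ω), ind (g ω c x y ≠ M ω c x y))) ≤
      1 / 8 + 1 / (a + 1) * Z := by
    have h3 : ∀ x y, ∑ ω, p ω * (ind (E ω x y) +
        1 / ((a : ℝ) + 1) * ∑ c ∈ cells (t ω), ind (g ω c x y ≠ M ω c x y)) =
        ∑ ω, p ω * ind (E ω x y) + 1 / ((a : ℝ) + 1) *
          ∑ ω, p ω * ∑ c ∈ cells (t ω), ind (g ω c x y ≠ M ω c x y) := by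
      intro x y
      rw [Finset.mul_sum, ← Finset.sum_add_distrib]
      apply Finset.sum_congr rfl
      intro ω _
      ring
    simp only [h3]
    rw [ex2_add, ex2_mul, ← hZ, ex2_sum]
    have h4 : ∑ ω, ex2 (1 / (m : ℝ)) n (fun x y => p ω * ind (E ω x y)) ≤
        ∑ ω, p ω * (1 / 8) := by
      apply Finset.sum_le_sum
      intro ω _
      rw [ex2_mul]
      exact mul_le_mul_of_nonneg_left (hE ω) (hp0 ω)
    rw [← Finset.sum_mul, hp1, one_mul] at h4
    linarith
  have h3 : (1 : ℝ) / 8 ≤ 1 / (a + 1) * Z := by linarith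
  rw [one_div_mul_eq_div, le_div_iff₀ ha0] at h3
  rw [← hZ]
  calc (u : ℝ) / (4000 * (w * C)) = 1 / 8 * (u / (500 * w * C)) := by field_simp; ring
    _ ≤ 1 / 8 * (a + 1) := by gcongr
    _ ≤ Z := h3

end Pool.Agent.H284.PS
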