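import Pool.Agent.W959.EntTree
import Pool.Agent.H568R2.Defs

/-!
# Data structures which decide whether two sets of a family intersect; joint cells, sensitive pairs,
contents of bounded depth
-/

set_option autoImplicit false

namespace Pool.Agent.H284.PS

open Finset Pool.Agent.W959.Ent

/-- the cells which the query procedure reads for some contents of the memory -/
def cells {S : ℕ} {V R : Type} [Fintype V] : QTree S V R → Finset (Fin S)
  | .out _ => ∅
  | .probe c next => insert c (Finset.univ.biUnion fun v => cells (next v))

namespace SI

/-- A data structure for a family of `2 k` subsets of a universe with `u` elements, which is given as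
two halves `X` and `Y` of `k` sets each: a memory of `S` cells of `w` bits, whose contents are
arbitrary functions of the family, and an adaptive query procedure for each pair of a set number `i`
of the first half and a set number `j` of the second half, with results in `W`. -/
structure DS (k u w S : ℕ) (W : Type) where
  cell : Fin S → (Fin k → Finset (Fin u)) → (Fin k → Finset (Fin u)) → Fin (2 ^ w)
  query : Fin k → Fin k → QTree S (Fin (2 ^ w)) W

variable {k u w S : ℕ} {W : Type}

/-- the total size of a half of the family -/
def size (X : Fin k → Finset (Fin u)) : ℕ := ∑ i, (X i).card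

/-- It is decided correctly whether the sets `X i` and `Y j` intersect, and at most `T` cells are
read. -/
def DS.Decides (D : DS k u w S Bool) (T : ℕ) (X Y : Fin k → Finset (Fin u)) (i j : Fin k) : Prop :=
  ((D.query i j).run (fun c => D.cell c X Y) = true ↔ (X i ∩ Y j).Nonempty) ∧
    (D.query i j).cost (fun c => D.cell c X Y) ≤ T

open Classical in
/-- The random data structure `D` (with probabilities `p`) decides with `T` probes which sets
intersect, for families of total size at most `N`: for all such families and all `i`, `j` the query
`(i, j)` is answered correctly with at most `T` probes with probability at least `99 / 100`. -/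
def SolvesEmptiness {Ω : Type} [Fintype Ω] (p : Ω → ℝ) (D : Ω → DS k u w S Bool) (T N : ℕ) : Prop :=
  (∀ ω, 0 ≤ p ω) ∧ ∑ ω, p ω = 1 ∧
    ∀ X Y : Fin k → Finset (Fin u), size X + size Y ≤ N → ∀ i j : Fin k,
      99 / 100 ≤ ∑ ω, if (D ω).Decides T X Y i j then p ω else 0

/-- The intersection of the sets `X i` and `Y j` is listed correctly, and at most `C * (T + op)`
cells are read, where `op` is the size of the intersection. -/
def DS.Lists (D : DS k u w S (Finset (Fin u))) (C T : ℝ) (X Y : Fin k → Finset (Fin u))
    (i j : Fin k) : Prop :=
  (D.query i j).run (fun c => D.cell c X Y) = X i ∩ Y j ∧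
    ((D.query i j).cost (fun c => D.cell c X Y) : ℝ) ≤ C * (T + (X i ∩ Y j).card)

open Classical in
/-- The random data structure `D` (with probabilities `p`) lists intersections in time
`C * (T + op)`, for families of total size at most `N`: for all such families and all `i`, `j` the
query `(i, j)` is answered correctly with at most `C * (T + op)` probes with probability at least
`1 / 2`. -/
def SolvesListing {Ω : Type} [Fintype Ω] (p : Ω → ℝ) (D : Ω → DS k u w S (Finset (Fin u)))
    (C T : ℝ) (N : ℕ) : Prop :=
  (∀ ω, 0 ≤ p ω) ∧ ∑ ω, p ω = 1 ∧
    ∀ X Y : Fin k → Finset (Fin u), size X + size Y ≤ N → ∀ i j : Fin k,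
      1 / 2 ≤ ∑ ω, if (D ω).Lists C T X Y i j then p ω else 0

/-- The pairs to which the cell `c` is sensitive: the pairs `(i, j)` such that the query `(i, j)` may
read `c`, and the contents of `c` changes if the set `X i` is replaced by `X' i`, and also if instead
the set `Y j` is replaced by `Y' j`. -/
def DS.sensitive (D : DS k u w S W) (X Y X' Y' : Fin k → Finset (Fin u)) (c : Fin S) :
    Finset (Fin k × Fin k) :=
  Finset.univ.filter fun e => c ∈ cells (D.query e.1 e.2) ∧
    D.cell c (Function.update X e.1 (X' e.1)) Y ≠ D.cell c X Y ∧
    D.cell c X (Function.update Y e.2 (Y' e.2)) ≠ D.cell c X Y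

open Classical in
/-- The joint cells: the cells `c` which may be read by a query `(i, j)` such that the contents of
`c` depends on the set number `i` of the first half and on the set number `j` of the second half.
So a cell is not joint if, for instance, its contents is an arbitrary function of one of the two
halves. -/
noncomputable def DS.joint (D : DS k u w S W) : Finset (Fin S) :=
  Finset.univ.filter fun c => ∃ i j, c ∈ cells (D.query i j) ∧
    (∃ X Y Z, D.cell c (Function.update X i Z) Y ≠ D.cell c X Y) ∧
    (∃ X Y Z, D.cell c X (Function.update Y j Z) ≠ D.cell c X Y)

/-- The bit `f` is computed by a Boolean circuit of depth at most `d` with at most `s` gates (AND and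
OR of unbounded fan-in, NOT) whose inputs are arbitrary functions of single sets of the family. -/
def BoundedDepth (d s : ℕ)
    (f : (Fin k → Finset (Fin u)) → (Fin k → Finset (Fin u)) → Bool) : Prop :=
  ∃ (J : Type) (C : DomAC0.Circuit J) (l : J → Fin k ⊕ Fin k) (h : J → Finset (Fin u) → Bool),
    C.size ≤ s ∧ C.depth ≤ d ∧ ∀ X Y, f X Y = C.eval (fun j => h j (Sum.elim X Y (l j)))

/-- Every bit of every joint cell is computed by a circuit of depth at most `d` with at most `s`
gates whose inputs are arbitrary functions of single sets of the family. -/
def DS.JointBoundedDepth (D : DS k u w S W) (d s : ℕ) : Prop :=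
  ∀ c ∈ D.joint, ∀ l < w, BoundedDepth d s (fun X Y => (D.cell c X Y).val.testBit l)

end SI

end Pool.Agent.H284.PS
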