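import Pool.Agent.Run7.h284.PS.Fam
import Pool.Agent.Run7.h284.PS.Model

/-!
# One pair of sets: simulation of a query by a protocol
-/

set_option autoImplicit false

namespace Pool.Agent.H284.PS

open Finset DomAC0 H568R2
open Pool.Agent.W959 Pool.Agent.W959.Ent Pool.Agent.TH457.EntD

section

variable {K : ℕ} {A V : Type}

/-- the function is sensitive to both sets -/
def BS (Φ : (Fin K → A) → V) (i j : Fin K) (F F' : Fin K → A) : Prop :=
  Φ (Function.update F i (F' i)) ≠ Φ F ∧ Φ (Function.update F j (F' j)) ≠ Φ F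

open Classical in
/-- the value computed from the values at three corners -/
noncomputable def simv (Φ : (Fin K → A) → V) (i j : Fin K) (F F' : Fin K → A) : V :=
  if Φ (Function.update F j (F' j)) =
      Φ (Function.update (Function.update F i (F' i)) j (F' j)) then
    Φ (Function.update F i (F' i)) else Φ (Function.update F j (F' j))

lemma simv_fail {Φ : (Fin K → A) → V} {i j : Fin K} (hij : i ≠ j) {F F' : Fin K → A}
    (h : simv Φ i j F F' ≠ Φ F) :
    BS Φ i j F F' ∨
      BS Φ i j (Function.update F i (F' i)) (Function.update F' i (F i)) ∨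
      BS Φ i j (Function.update F j (F' j)) (Function.update F' j (F j)) := by
  have e1 : Function.update (Function.update F i (F' i)) i ((Function.update F' i (F i)) i) = F := by
    simp
  have e2 : Function.update (Function.update F i (F' i)) j ((Function.update F' i (F i)) j) =
      Function.update (Function.update F i (F' i)) j (F' j) := by
    rw [Function.update_of_ne (Ne.symm hij)]
  have e3 : Function.update (Function.update F j (F' j)) i ((Function.update F' j (F j)) i) =
      Function.update (Function.update F i (F' i)) j (F' j) := by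
    rw [Function.update_of_ne hij, Function.update_comm hij]
  have e4 : Function.update (Function.update F j (F' j)) j ((Function.update F' j (F j)) j) = F := by
    simp
  unfold BS
  rw [e1, e2, e3, e4]
  unfold simv at h
  by_cases h1 : Φ (Function.update F j (F' j)) =
      Φ (Function.update (Function.update F i (F' i)) j (F' j))
  · rw [if_pos h1] at h
    by_cases h2 : Φ (Function.update F j (F' j)) = Φ F
    · right; left
      refine ⟨Ne.symm h, ?_⟩
      rw [← h1, h2]
      exact Ne.symm h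
    · left
      exact ⟨h, h2⟩
  · rw [if_neg h1] at h
    right; right
    exact ⟨Ne.symm h1, Ne.symm h⟩

end

lemma run_congr {S : ℕ} {V R : Type} [Fintype V] (t : QTree S V R) {mem mem' : Fin S → V}
    (h : ∀ c ∈ cells t, mem c = mem' c) : t.run mem = t.run mem' ∧ t.cost mem = t.cost mem' := by
  induction t with
  | out a => exact ⟨rfl, rfl⟩
  | probe c next ih =>
    have h1 : mem c = mem' c := h c (by unfold cells; exact Finset.mem_insert_self _ _)
    have h2 := ih (mem c) (fun c' hc' => h c' (by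
      unfold cells
      exact Finset.mem_insert_of_mem (Finset.mem_biUnion.2 ⟨mem c, Finset.mem_univ _, hc'⟩)))
    simp only [QTree.run, QTree.cost]
    rw [h2.1, h2.2, h1]
    exact ⟨rfl, rfl⟩

/-- The answer is right after at most `T` probes: it is `v` if and only if `P` holds. -/
def RightT {S w : ℕ} (T : ℕ) (v : Bool) (mem : Fin S → Fin (2 ^ w))
    (t : QTree S (Fin (2 ^ w)) Bool) (P : Prop) : Prop :=
  (t.run mem = v ↔ P) ∧ t.cost mem ≤ T

/-- **One pair.** Contents which are computed from the values at three corners do not suffice to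
decide disjointness. -/
theorem pair_sim {S w n T m : ℕ} (hm : 100 * (2 * w * T + 12) ≤ m) (hn : n = m ^ 2)
    (M : Fin S → (Fin n → Bool) → (Fin n → Bool) → Fin (2 ^ w)) (x0 y0 : Fin n → Bool)
    (g : Fin S → (Fin n → Bool) → (Fin n → Bool) → Fin (2 ^ w))
    (hg : ∀ c x y, g c x y = if M c x y0 = M c x0 y0 then M c x0 y else M c x y0)
    (t : QTree S (Fin (2 ^ w)) Bool) (v : Bool) :
    (366 / 1000 : ℝ) ≤ 28 * ex2 (1 / (m : ℝ)) n
      (fun x y => ind (¬ RightT T v (fun c => g c x y) t (conj x y = zero n))) + 7 / 1000 := by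
  have hm12 : 1200 ≤ m := le_trans (by omega) hm
  have hm10 : 10 ≤ m := by omega
  have hmr : 100 * ((2 * w * T + 12 : ℕ) : ℝ) ≤ m := by exact_mod_cast hm
  have hm' : (1200 : ℝ) ≤ m := by exact_mod_cast hm12
  have hm0 : (0 : ℝ) < m := by linarith
  have hinv0 : 0 < 1 / (m : ℝ) := by positivity
  have hr1 : 0 ≤ 1 - 1 / (m : ℝ) := by
    have : 1 / (m : ℝ) ≤ 1 := by
      rw [div_le_one (by linarith)]; linarith
    linarith
  obtain ⟨e, he⟩ : ∃ e : ℝ, e = ((2 * w * T + 12 : ℕ) : ℝ) := ⟨_, rfl⟩
  have he0 : 0 ≤ e := by rw [he]; positivity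
  rw [← he] at hmr
  obtain ⟨α, hα⟩ : ∃ α : ℝ, α = 2 ^ (e * (1 / ((m : ℝ) + 1))) := ⟨_, rfl⟩
  obtain ⟨β, hβ⟩ : ∃ β : ℝ, β = 2 ^ (-e * (1 - 1 / ((m : ℝ) + 1))) := ⟨_, rfl⟩
  have hα0 : 0 ≤ α := by rw [hα]; positivity
  have hβ0 : 0 ≤ β := by rw [hβ]; positivity
  have hα1 : α ≤ 1007 / 1000 := by rw [hα]; exact two_rpow_le hmr
  have hβ1 : β * ((2 : ℝ) ^ (2 * w)) ^ T ≤ 1007 / 1000 * (1 / 4096) := by
    have h1 : β * ((2 : ℝ) ^ (2 * w)) ^ T = α * (1 / 4096) := by
      rw [hα, hβ, ← pow_mul, ← Real.rpow_natCast, ← Real.rpow_add (by norm_num),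
        show (1 / 4096 : ℝ) = 2 ^ (-12 : ℝ) by
          rw [Real.rpow_neg (by norm_num)]; norm_num,
        ← Real.rpow_add (by norm_num)]
      congr 1
      rw [he]
      push_cast
      ring
    rw [h1]
    exact mul_le_mul_of_nonneg_right hα1 (by norm_num)
  obtain ⟨γ, hγ⟩ : ∃ γ : ℝ, γ = (1 - 1 / (22 * (m : ℝ) ^ 2)) ^ n := ⟨_, rfl⟩
  have hγ1 : γ ≤ 22 / 23 := by rw [hγ, hn]; exact gamma_le hm10
  have hγ0 : 0 ≤ γ := by
    rw [hγ]
    apply pow_nonneg
    have : 1 / (22 * (m : ℝ) ^ 2) ≤ 1 := by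
      rw [div_le_one (by positivity)]
      nlinarith
    linarith
  let q : Fin S → (Fin n → Bool) → (Fin n → Bool) → Option (Fin (2 ^ w) × Fin (2 ^ w)) :=
    fun c x y => some (M c x y0, M c x0 y)
  have hM : ((Fintype.card (Fin (2 ^ w) × Fin (2 ^ w)) : ℕ) : ℝ) ≤ (2 : ℝ) ^ (2 * w) := by
    rw [Fintype.card_prod, Fintype.card_fin]
    push_cast
    rw [← pow_add]
    apply le_of_eq
    congr 1
    ring
  have h1 := tree_cor hm10 n w S g ((2 : ℝ) ^ (2 * w)) (one_le_pow₀ (by norm_num)) hM q
    (fun c x x' y y' l h h' => by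
      simp only [q, Option.some.injEq] at h h' ⊢
      rw [← h] at h'
      rw [← h, Prod.mk.injEq]
      rw [Prod.mk.injEq] at h'
      exact ⟨rfl, h'.2⟩)
    (fun c x x' y y' l h h' => by
      simp only [q, Option.some.injEq] at h h'
      rw [← h', Prod.mk.injEq] at h
      rw [hg, hg, h.1, h.2])
    v hα0 hβ0 (fun P hP => by rw [hα, hβ]; exact holder_leaf hm10 e P hP) t T
    (fun _ => True) (fun _ => True)
  rw [← hγ] at h1
  simp only [true_and] at h1
  obtain ⟨B, hB⟩ : ∃ B, B = ex2 (1 / (m : ℝ)) n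
      (fun x y => ind (Acc g q v t T x y ∧ conj x y = zero n)) := ⟨_, rfl⟩
  obtain ⟨r, hr⟩ : ∃ r, r = ex2 (1 / (m : ℝ)) n
      (fun x y => ind (¬ RightT T v (fun c => g c x y) t (conj x y = zero n))) := ⟨_, rfl⟩
  have hbad : ∀ x y, t.bad (fun c => g c x y) (fun c => q c x y = none) = 0 := by
    intro x y
    apply bad_eq_zero
    intro c hc
    simp [q] at hc
  have h2 : ex2 (1 / (m : ℝ)) n (fun x y => ind (Acc g q v t T x y)) ≤ B + r := by
    rw [hB, hr, ← ex2_add]
    apply ex2_mono hinv0.le hr1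
    intro x y
    by_cases h3 : Acc g q v t T x y
    · by_cases h4 : RightT T v (fun c => g c x y) t (conj x y = zero n)
      · rw [ind_true h3, ind_true ⟨h3, h4.1.1 h3.2.2⟩]
        have := ind_nonneg (¬ RightT T v (fun c => g c x y) t (conj x y = zero n))
        linarith
      · rw [ind_true h3, ind_true h4]
        have := ind_nonneg (Acc g q v t T x y ∧ conj x y = zero n)
        linarith
    · rw [ind_false h3]
      exact add_nonneg (ind_nonneg _) (ind_nonneg _)
  have h3 : (366 / 1000 : ℝ) ≤ B + r := by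
    have h4 : (366 / 1000 : ℝ) ≤
        ex2 (1 / (m : ℝ)) n (fun x y => ind (conj x y = zero n)) := by
      rw [ex2_disj, hn]
      exact disj_ge hm12
    refine h4.trans ?_
    rw [hB, hr, ← ex2_add]
    apply ex2_mono hinv0.le hr1
    intro x y
    have i1 := ind_nonneg (Acc g q v t T x y ∧ conj x y = zero n)
    have i2 := ind_nonneg (¬ RightT T v (fun c => g c x y) t (conj x y = zero n))
    by_cases h5 : conj x y = zero n
    · rw [ind_true h5]
      by_cases h6 : RightT T v (fun c => g c x y) t (conj x y = zero n)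
      · have h8 : Acc g q v t T x y := ⟨h6.2, hbad x y, h6.1.2 h5⟩
        rw [ind_true ⟨h8, h5⟩]
        linarith
      · rw [ind_true h6]
        linarith
    · rw [ind_false h5]
      linarith
  rw [← hB] at h1
  rw [← hr]
  have hr0 : 0 ≤ r := by
    rw [hr]
    exact ex2_nonneg hinv0.le hr1 n fun x y => ind_nonneg _
  have hB0 : 0 ≤ B := by
    rw [hB]
    exact ex2_nonneg hinv0.le hr1 n fun x y => ind_nonneg _
  have h4 : B ≤ 22 / 23 * (1007 / 1000 * (B + r) + 1007 / 1000 * (1 / 4096)) := by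
    refine h1.trans ?_
    have h5 : α * ex2 (1 / (m : ℝ)) n (fun x y => ind (Acc g q v t T x y)) ≤
        1007 / 1000 * (B + r) := by
      calc _ ≤ α * (B + r) := mul_le_mul_of_nonneg_left h2 hα0
        _ ≤ _ := mul_le_mul_of_nonneg_right hα1 (by linarith)
    have h6 := add_le_add h5 hβ1
    calc _ ≤ γ * (1007 / 1000 * (B + r) + 1007 / 1000 * (1 / 4096)) :=
          mul_le_mul_of_nonneg_left h6 hγ0
      _ ≤ _ := mul_le_mul_of_nonneg_right hγ1 (by linarith)
  linarith

end Pool.Agent.H284.PS
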