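import Pool.Agent.TH163.AC3.Col
import Pool.Agent.H568R2.Sens

/-!
# The second moment of the sensitivity of circuits of bounded depth
-/

set_option autoImplicit false

namespace Pool.Agent.H284.PS

open Finset DomAC0 H568R2 Pool.Agent.TH163.AC3

variable {I : Type} [Fintype I] [DecidableEq I]

/-- change one bit -/
def flip (z : I → Bool) (i : I) : I → Bool := Function.update z i (!z i)

/-- the sensitivity of `f` at `z`: the number of bits whose change changes the value -/
def SS (f : (I → Bool) → Bool) (z : I → Bool) : ℕ :=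
  (univ.filter fun i => f (flip z i) ≠ f z).card

omit [Fintype I] in
lemma ov_flip (ρ : Restr I) (x : I → Bool) {i : I} (h : ρ i = none) :
    ov ρ (flip x i) = flip (ov ρ x) i := by
  funext j
  unfold ov flip
  by_cases hj : j = i
  · subst hj
    simp [h]
  · simp [Function.update_of_ne hj]

/-- the number of stars which are sensitive -/
def ST (f : (I → Bool) → Bool) (Y : I → Bool) (z : I → Bool) : ℕ :=
  (univ.filter fun i => Y i = true ∧ f (flip z i) ≠ f z).card

lemma ST_le_SS (f : (I → Bool) → Bool) (ρ : Restr I) (x : I → Bool) :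
    ST f (fun i => (ρ i).isNone) (ov ρ x) ≤ SS (rs f ρ) x := by
  apply Finset.card_le_card
  intro i hi
  simp only [Finset.mem_filter, Finset.mem_univ, true_and] at hi ⊢
  obtain ⟨h1, h2⟩ := hi
  have h3 : ρ i = none := by simpa using h1
  show f (ov ρ (flip x i)) ≠ f (ov ρ x)
  rw [ov_flip ρ x h3]
  exact h2

lemma ST_le_card (f : (I → Bool) → Bool) (Y z : I → Bool) : ST f Y z ≤ Fintype.card I :=
  Finset.card_le_univ _

lemma SS_le_card (f : (I → Bool) → Bool) (z : I → Bool) : SS f z ≤ Fintype.card I :=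
  Finset.card_le_univ _

lemma SS_dt {s : ℕ} {f : (I → Bool) → Bool} (h : HasDT s f) (z : I → Bool) : SS f z ≤ s := by
  obtain ⟨t, ht, he⟩ := h
  refine le_trans ?_ ((t.card_reads z).trans ht)
  apply Finset.card_le_card
  intro i hi
  simp only [Finset.mem_filter, Finset.mem_univ, true_and] at hi
  by_contra hni
  apply hi
  rw [← he, ← he]
  refine (t.congr z (flip z i) ?_).1
  intro j hj
  unfold flip
  rw [Function.update_of_ne]
  rintro rfl
  exact hni hj

/-- the fair coin -/
noncomputable def uw : Bool → ℝ := fun _ => 1 / 2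

lemma uw_nonneg (a : Bool) : 0 ≤ uw a := by unfold uw; norm_num

lemma uw_sum : ∑ a, uw a = 1 := by rw [Fintype.sum_bool]; unfold uw; norm_num

lemma Ex_mul_const {A : Type*} [Fintype A] (w : A → ℝ) (c : ℝ) (F : (I → A) → ℝ) :
    Ex w (fun ω => c * F ω) = c * Ex w F := Ex_smul w c F

/-- the expected value of one star -/
lemma Ex_star (q : ℝ) (i : I) :
    Ex (vp q) (fun Y : I → Bool => if Y i = true then (1 : ℝ) else 0) = q := by
  rw [Ex_resample (vp_sum q) _ i]
  have h : ∀ Y : I → Bool, ∑ a, vp q a * (if Function.update Y i a i = true then (1 : ℝ) else 0) =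
      q := by
    intro Y
    rw [Fintype.sum_bool]
    simp [vp]
  simp only [h]
  exact Ex_const (vp_sum q) q

/-- the second moment of the number of stars in a set -/
lemma Ex_star_sq {q : ℝ} (h0 : 0 ≤ q) (h1 : q ≤ 1) (f : (I → Bool) → Bool) (z : I → Bool) :
    q ^ 2 * (SS f z : ℝ) ^ 2 ≤ Ex (vp q) (fun Y : I → Bool => (ST f Y z : ℝ) ^ 2) := by
  obtain ⟨A, hA⟩ : ∃ A : Finset I, A = univ.filter fun i => f (flip z i) ≠ f z := ⟨_, rfl⟩
  have hSS : (SS f z : ℝ) = A.card := by rw [hA]; rfl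
  have hST : ∀ Y : I → Bool, (ST f Y z : ℝ) = ∑ i ∈ A, if Y i = true then (1 : ℝ) else 0 := by
    intro Y
    rw [hA, ST, Finset.sum_ite, Finset.sum_const_zero, add_zero, Finset.sum_const, nsmul_eq_mul,
      mul_one, Finset.filter_filter]
    congr 2
    ext i
    simp [and_comm]
  have hE : Ex (vp q) (fun Y : I → Bool => (ST f Y z : ℝ)) = q * A.card := by
    simp only [hST]
    rw [Ex_sum]
    simp only [Ex_star]
    rw [Finset.sum_const, nsmul_eq_mul, mul_comm]
  obtain ⟨c, hc⟩ : ∃ c : ℝ, c = q * A.card := ⟨_, rfl⟩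
  have h2 : Ex (vp q) (fun Y : I → Bool => 2 * c * (ST f Y z : ℝ) + -(c ^ 2)) ≤
      Ex (vp q) (fun Y : I → Bool => (ST f Y z : ℝ) ^ 2) := by
    apply Ex_mono (fun a => vp_nonneg h0 h1 a)
    intro Y
    nlinarith [sq_nonneg ((ST f Y z : ℝ) - c)]
  rw [Ex_add, Ex_smul, Ex_const (vp_sum q), hE, ← hc] at h2
  rw [hSS, ← mul_pow, ← hc]
  linarith [h2]

/-- a random restriction followed by a random point is a random point with random stars -/
lemma Ex_ov (q : ℝ) (H : (I → Bool) → (I → Bool) → ℝ) :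
    Ex (wq q) (fun ρ : Restr I => Ex uw (fun x => H (fun i => (ρ i).isNone) (ov ρ x))) =
      Ex uw (fun z : I → Bool => Ex (vp q) (fun Y => H Y z)) := by
  have h1 := Ex_prod (I := I) (wq q) uw
    (fun ω => H (fun i => (ω i).1.isNone) (fun i => (ω i).1.getD (ω i).2))
  have h2 := Ex_push (I := I) (fun c : Option Bool × Bool => (c.1.getD c.2, c.1.isNone))
    (fun c => wq q c.1 * uw c.2) (fun c : Bool × Bool => uw c.1 * vp q c.2) (by
      intro b
      rw [Finset.sum_filter, Fintype.sum_prod_type]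
      simp only [Fintype.sum_option, Fintype.sum_bool]
      rcases b with ⟨_ | _, _ | _⟩ <;> simp [wq, uw, vp] <;> ring)
    (fun ω => H (fun i => (ω i).2) (fun i => (ω i).1))
  have h3 := Ex_prod (I := I) uw (vp q) (fun ω => H (fun i => (ω i).2) (fun i => (ω i).1))
  rw [h3] at h2
  rw [← h2, h1]
  rfl

/-- **The second moment of the sensitivity and random restrictions.** -/
theorem moment {q : ℝ} (h0 : 0 ≤ q) (h1 : q ≤ 1) (f : (I → Bool) → Bool) (s : ℕ) :
    q ^ 2 * Ex uw (fun z : I → Bool => (SS f z : ℝ) ^ 2) ≤ (s : ℝ) ^ 2 +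
      (Fintype.card I : ℝ) ^ 2 * Ex (wq q) (fun ρ : Restr I =>
        open Classical in if ¬ HasDT s (rs f ρ) then (1 : ℝ) else 0) := by
  classical
  have h2 : q ^ 2 * Ex uw (fun z : I → Bool => (SS f z : ℝ) ^ 2) ≤
      Ex uw (fun z : I → Bool => Ex (vp q) (fun Y => (ST f Y z : ℝ) ^ 2)) := by
    rw [← Ex_smul]
    apply Ex_mono uw_nonneg
    intro z
    exact Ex_star_sq h0 h1 f z
  rw [← Ex_ov q (fun Y z => (ST f Y z : ℝ) ^ 2)] at h2
  refine h2.trans ?_
  have h3 : Ex (wq q) (fun ρ : Restr I => Ex uw (fun x =>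
      (ST f (fun i => (ρ i).isNone) (ov ρ x) : ℝ) ^ 2)) ≤
      Ex (wq q) (fun ρ : Restr I => (s : ℝ) ^ 2 + (Fintype.card I : ℝ) ^ 2 *
        (if ¬ HasDT s (rs f ρ) then (1 : ℝ) else 0)) := by
    apply Ex_mono (wq_nonneg h0 h1)
    intro ρ
    rw [← Ex_const (I := I) uw_sum ((s : ℝ) ^ 2 + (Fintype.card I : ℝ) ^ 2 *
        (if ¬ HasDT s (rs f ρ) then (1 : ℝ) else 0))]
    apply Ex_mono uw_nonneg
    intro x
    by_cases h : HasDT s (rs f ρ)
    · simp only [h, not_true, if_false, mul_zero, add_zero]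
      have h4 : (ST f (fun i => (ρ i).isNone) (ov ρ x) : ℝ) ≤ s := by
        exact_mod_cast (ST_le_SS f ρ x).trans (SS_dt h x)
      exact pow_le_pow_left₀ (Nat.cast_nonneg _) h4 2
    · simp only [h, not_false_eq_true, if_true, mul_one]
      have h4 : (ST f (fun i => (ρ i).isNone) (ov ρ x) : ℝ) ≤ Fintype.card I := by
        exact_mod_cast ST_le_card f _ _
      have h5 := pow_le_pow_left₀ (Nat.cast_nonneg _) h4 2
      have h6 : (0 : ℝ) ≤ (s : ℝ) ^ 2 := by positivity
      linarith
  rw [Ex_add, Ex_smul, Ex_const (wq_sum q)] at h3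
  convert h3

end Pool.Agent.H284.PS
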