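import Pool.Agent.W959.EntTree
import Pool.Agent.H568R2.Defs

/-!
# Data structures for 3SUM-Indexing; joint cells, sensitive pairs of blocks, contents of bounded depth
-/

set_option autoImplicit false

namespace Pool.Agent.H284.PS.TS

open Finset Pool.Agent.W959.Ent

/-- an array of `n` integers between `0` and `n ^ 2` -/
abbrev Arr (n : ℕ) : Type := Fin n → Fin (n ^ 2 + 1)

/-- A data structure for two arrays of `n` integers between `0` and `n ^ 2`: a memory of `S` cells of
`w` bits, whose contents are arbitrary functions of the two arrays, and an adaptive query procedure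
for each number `z`, with a yes/no answer. -/
structure DS (n w S : ℕ) where
  cell : Fin S → Arr n → Arr n → Fin (2 ^ w)
  query : ℕ → QTree S (Fin (2 ^ w)) Bool

variable {n w S : ℕ}

/-- The query, whether `z` is the sum of an element of `A` and an element of `B`, is answered
correctly, and at most `T` cells are read. -/
def DS.Good (D : DS n w S) (T : ℕ) (A B : Arr n) (z : ℕ) : Prop :=
  ((D.query z).run (fun c => D.cell c A B) = true ↔ ∃ i j, (A i).val + (B j).val = z) ∧
    (D.query z).cost (fun c => D.cell c A B) ≤ T

open Classical in
/-- The random data structure `D` (with probabilities `p`) solves 3SUM-Indexing with `T` probes: for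
all arrays, every query is `Good` with probability at least `99 / 100`. -/
def Solves {Ω : Type} [Fintype Ω] (p : Ω → ℝ) (D : Ω → DS n w S) (T : ℕ) : Prop :=
  (∀ ω, 0 ≤ p ω) ∧ ∑ ω, p ω = 1 ∧
    ∀ (A B : Arr n) (z : ℕ), 99 / 100 ≤ ∑ ω, if (D ω).Good T A B z then p ω else 0

/-- the array `A`, with the block number `i` of `u` elements replaced by that of `A'` -/
def patch (u : ℕ) (A A' : Arr n) (i : ℕ) : Arr n := fun l => if l.val / u = i then A' l else A l

/-- The pairs of blocks to which the cell `c` is sensitive: the arrays are divided into blocks of `u`
elements, and `(i, j)` is such a pair if the contents of `c` changes if the block `i` of `A` is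
replaced by that of `A'`, and also if instead the block `j` of `B` is replaced by that of `B'`. Only
the first `k` blocks of each array are considered. -/
def DS.sensitive (D : DS n w S) (k u : ℕ) (A B A' B' : Arr n) (c : Fin S) :
    Finset (Fin k × Fin k) :=
  Finset.univ.filter fun e => D.cell c (patch u A A' e.1) B ≠ D.cell c A B ∧
    D.cell c A (patch u B B' e.2) ≠ D.cell c A B

open Classical in
/-- the joint cells: the cells whose contents depends on both arrays -/
noncomputable def DS.joint (D : DS n w S) : Finset (Fin S) :=
  Finset.univ.filter fun c => (∃ A A' B, D.cell c A B ≠ D.cell c A' B) ∧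
    (∃ A B B', D.cell c A B ≠ D.cell c A B')

/-- The bit `f` is computed by a Boolean circuit of depth at most `d` with at most `s` gates (AND and
OR of unbounded fan-in, NOT) whose inputs are arbitrary functions of single elements of the
arrays. -/
def BoundedDepth (d s : ℕ) (f : Arr n → Arr n → Bool) : Prop :=
  ∃ (J : Type) (C : DomAC0.Circuit J) (l : J → Fin n ⊕ Fin n)
    (h : J → Fin (n ^ 2 + 1) → Bool), C.size ≤ s ∧ C.depth ≤ d ∧
      ∀ A B, f A B = C.eval (fun j => h j (Sum.elim A B (l j)))

/-- Every bit of every joint cell is computed by a circuit of depth at most `d` with at most `s`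
gates whose inputs are arbitrary functions of single elements of the arrays. -/
def DS.JointBoundedDepth (D : DS n w S) (d s : ℕ) : Prop :=
  ∀ c ∈ D.joint, ∀ l < w, BoundedDepth d s (fun A B => (D.cell c A B).val.testBit l)

end Pool.Agent.H284.PS.TS
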