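import Pool.Agent.Run7.h284.PS.SIMain
import Pool.Agent.Run7.h284.PS.TSModel
import Pool.Agent.TH457.EntD.TSI

/-!
# 3SUM-Indexing: pair sensitivity, memory of bounded depth
-/

set_option autoImplicit false

namespace Pool.Agent.H284.PS.TS

open Finset DomAC0 H568R2
open Pool.Agent.W959 Pool.Agent.W959.Ent Pool.Agent.TH457.EntD

variable {n w S k u : ℕ}

/-- the number which is in no relevant sum -/
def dum (k u : ℕ) : ℕ := 2 * u * k * k

/-- the first array: the element number `u * i + e` is `2 * u * i + e` if `e` is in the set `X i` -/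
def arrA (n : ℕ) {k u : ℕ} (h : 2 * u * k * k ≤ n ^ 2) (X : Fin k → Finset (Fin u)) : Arr n :=
  fun l => if hl : l.val / u < k ∧ 0 < u then
    (if (⟨l.val % u, Nat.mod_lt _ hl.2⟩ : Fin u) ∈ X ⟨l.val / u, hl.1⟩ then
      ⟨2 * u * (l.val / u) + l.val % u, by
        have h1 : l.val % u < u := Nat.mod_lt _ hl.2
        have h2 : l.val / u + 1 ≤ k := hl.1
        have h3 : 2 * u * (l.val / u + 1) ≤ 2 * u * k := Nat.mul_le_mul_left _ h2
        have h4 : 2 * u * k ≤ 2 * u * k * k :=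
          Nat.le_mul_of_pos_right _ (lt_of_le_of_lt (Nat.zero_le _) hl.1)
        have h5 : 2 * u * (l.val / u + 1) = 2 * u * (l.val / u) + 2 * u := by ring
        omega⟩
      else ⟨dum k u, Nat.lt_succ_of_le h⟩) else ⟨dum k u, Nat.lt_succ_of_le h⟩

/-- the second array: the element number `u * j + e` is `2 * u * k * j + (u - 1 - e)` if `e` is in the
set `Y j` -/
def arrB (n : ℕ) {k u : ℕ} (h : 2 * u * k * k ≤ n ^ 2) (Y : Fin k → Finset (Fin u)) : Arr n :=
  fun l => if hl : l.val / u < k ∧ 0 < u then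
    (if (⟨l.val % u, Nat.mod_lt _ hl.2⟩ : Fin u) ∈ Y ⟨l.val / u, hl.1⟩ then
      ⟨2 * u * k * (l.val / u) + (u - 1 - l.val % u), by
        have h1 : l.val % u < u := Nat.mod_lt _ hl.2
        have h2 : l.val / u + 1 ≤ k := hl.1
        have h3 : 2 * u * k * (l.val / u + 1) ≤ 2 * u * k * k := Nat.mul_le_mul_left _ h2
        have h4 : 2 * u ≤ 2 * u * k :=
          Nat.le_mul_of_pos_right _ (lt_of_le_of_lt (Nat.zero_le _) hl.1)
        have h5 : 2 * u * k * (l.val / u + 1) = 2 * u * k * (l.val / u) + 2 * u * k := by ring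
        omega⟩
      else ⟨dum k u, Nat.lt_succ_of_le h⟩) else ⟨dum k u, Nat.lt_succ_of_le h⟩

/-- the two halves as one family -/
def fam2 (X Y : Fin k → Finset (Fin u)) : Fin (k + k) → Finset (Fin u) := Fin.append X Y

lemma arrA_iff (hn : k * u ≤ n) (h : 2 * u * k * k ≤ n ^ 2) (X Y : Fin k → Finset (Fin u))
    {a : ℕ} (ha : a < dum k u) : (∃ l, (arrA n h X l).val = a) ↔ a ∈ TSI.arr1 (fam2 X Y) := by
  unfold TSI.arr1 fam2
  simp only [Fin.append_left, Set.mem_ofPred_eq]
  constructor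
  · rintro ⟨l, hl⟩
    unfold arrA at hl
    split_ifs at hl with h1 h2
    · exact ⟨⟨l.val / u, h1.1⟩, ⟨l.val % u, Nat.mod_lt _ h1.2⟩, h2, hl.symm⟩
    · simp only at hl
      omega
    · simp only at hl
      omega
  · rintro ⟨i, e, he, rfl⟩
    have hu : 0 < u := lt_of_le_of_lt (Nat.zero_le _) e.2
    have hlt : u * i.val + e.val < n := by
      have h1 : i.val + 1 ≤ k := i.2
      have h2 : u * (i.val + 1) ≤ u * k := Nat.mul_le_mul_left _ h1
      have h3 : u * (i.val + 1) = u * i.val + u := by ring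
      have h4 : u * k = k * u := Nat.mul_comm _ _
      have := e.2
      omega
    refine ⟨⟨u * i.val + e.val, hlt⟩, ?_⟩
    have e1 : (u * i.val + e.val) / u = i.val := by
      rw [Nat.mul_add_div hu, Nat.div_eq_of_lt e.2, add_zero]
    have e2 : (u * i.val + e.val) % u = e.val := by
      rw [Nat.mul_add_mod, Nat.mod_eq_of_lt e.2]
    unfold arrA
    have hc : (u * i.val + e.val) / u < k ∧ 0 < u := ⟨by rw [e1]; exact i.2, hu⟩
    rw [dif_pos hc]
    simp only [he, if_true, e1, e2]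

lemma arrB_iff (hn : k * u ≤ n) (h : 2 * u * k * k ≤ n ^ 2) (X Y : Fin k → Finset (Fin u))
    {a : ℕ} (ha : a < dum k u) : (∃ l, (arrB n h Y l).val = a) ↔ a ∈ TSI.arr2 (fam2 X Y) := by
  unfold TSI.arr2 fam2
  simp only [Fin.append_right, Set.mem_ofPred_eq]
  constructor
  · rintro ⟨l, hl⟩
    unfold arrB at hl
    split_ifs at hl with h1 h2
    · exact ⟨⟨l.val / u, h1.1⟩, ⟨l.val % u, Nat.mod_lt _ h1.2⟩, h2, hl.symm⟩
    · simp only at hl
      omega
    · simp only at hl
      omega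
  · rintro ⟨i, e, he, rfl⟩
    have hu : 0 < u := lt_of_le_of_lt (Nat.zero_le _) e.2
    have hlt : u * i.val + e.val < n := by
      have h1 : i.val + 1 ≤ k := i.2
      have h2 : u * (i.val + 1) ≤ u * k := Nat.mul_le_mul_left _ h1
      have h3 : u * (i.val + 1) = u * i.val + u := by ring
      have h4 : u * k = k * u := Nat.mul_comm _ _
      have := e.2
      omega
    refine ⟨⟨u * i.val + e.val, hlt⟩, ?_⟩
    have e1 : (u * i.val + e.val) / u = i.val := by
      rw [Nat.mul_add_div hu, Nat.div_eq_of_lt e.2, add_zero]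
    have e2 : (u * i.val + e.val) % u = e.val := by
      rw [Nat.mul_add_mod, Nat.mod_eq_of_lt e.2]
    unfold arrB
    have hc : (u * i.val + e.val) / u < k ∧ 0 < u := ⟨by rw [e1]; exact i.2, hu⟩
    rw [dif_pos hc]
    simp only [he, if_true, e1, e2]

/-- the query for the sets `X i` and `Y j` -/
def zq (u : ℕ) {k : ℕ} (i j : Fin k) : ℕ := 2 * u * (i + k * j) + (u - 1)

lemma sum_query (hu : 0 < u) (hn : k * u ≤ n) (h : 2 * u * k * k ≤ n ^ 2)
    (X Y : Fin k → Finset (Fin u)) (i j : Fin k) : (∃ a b, (arrA n h X a).val + (arrB n h Y b).val = zq u i j) ↔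
      ¬ Disjoint (X i) (Y j) := by
  have h1 := TSI.sum_iff (fam2 X Y) i j
  unfold fam2 at h1
  rw [Fin.append_left, Fin.append_right] at h1
  rw [← h1]
  have hz : zq u i j < dum k u := by
    unfold zq dum
    have hi := i.2
    have hj : j.val + 1 ≤ k := j.2
    have h2 : k * (j.val + 1) ≤ k * k := Nat.mul_le_mul_left _ hj
    have h3 : i.val + k * j.val + 1 ≤ k * k := by
      have : k * (j.val + 1) = k * j.val + k := by ring
      omega
    have h4 : 2 * u * (i.val + k * j.val + 1) ≤ 2 * u * (k * k) := Nat.mul_le_mul_left _ h3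
    have h5 : 2 * u * (i.val + k * j.val + 1) = 2 * u * (i.val + k * j.val) + 2 * u := by ring
    have h6 : 2 * u * k * k = 2 * u * (k * k) := by ring
    omega
  constructor
  · rintro ⟨a, b, hab⟩
    refine ⟨(arrA n h X a).val, ?_, (arrB n h Y b).val, ?_, hab⟩
    · exact (arrA_iff hn h X Y (by omega)).1 ⟨a, rfl⟩
    · exact (arrB_iff hn h X Y (by omega)).1 ⟨b, rfl⟩
  · rintro ⟨a, ha, b, hb, hab⟩
    have hab' : a + b = zq u i j := hab
    obtain ⟨l, hl⟩ := (arrA_iff hn h X Y (a := a) (by omega)).2 ha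
    obtain ⟨l', hl'⟩ := (arrB_iff hn h X Y (a := b) (by omega)).2 hb
    exact ⟨l, l', by rw [hl, hl']; exact hab⟩

/-- the block of an element -/
def blk (hk : 0 < k) (u : ℕ) (l : Fin n) : Fin k :=
  if h : l.val / u < k then ⟨l.val / u, h⟩ else ⟨0, hk⟩

lemma arrA_blk (h : 2 * u * k * k ≤ n ^ 2) (hk : 0 < k) (X : Fin k → Finset (Fin u))
    (l : Fin n) : arrA n h (fun _ => X (blk hk u l)) l = arrA n h X l := by
  unfold arrA blk
  by_cases h1 : l.val / u < k
  · simp only [dif_pos h1]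
  · have h2 : ¬ (l.val / u < k ∧ 0 < u) := fun h3 => h1 h3.1
    rw [dif_neg h2, dif_neg h2]

lemma arrB_blk (h : 2 * u * k * k ≤ n ^ 2) (hk : 0 < k) (X : Fin k → Finset (Fin u))
    (l : Fin n) : arrB n h (fun _ => X (blk hk u l)) l = arrB n h X l := by
  unfold arrB blk
  by_cases h1 : l.val / u < k
  · simp only [dif_pos h1]
  · have h2 : ¬ (l.val / u < k ∧ 0 < u) := fun h3 => h1 h3.1
    rw [dif_neg h2, dif_neg h2]

lemma arrA_update (h : 2 * u * k * k ≤ n ^ 2) (X X' : Fin k → Finset (Fin u)) (i : Fin k) :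
    arrA n h (Function.update X i (X' i)) = patch u (arrA n h X) (arrA n h X') i := by
  funext l
  unfold patch
  by_cases h1 : l.val / u = i.val
  · rw [if_pos h1]
    unfold arrA
    by_cases h2 : l.val / u < k ∧ 0 < u
    · rw [dif_pos h2, dif_pos h2]
      have h3 : (⟨l.val / u, h2.1⟩ : Fin k) = i := Fin.ext h1
      rw [h3, Function.update_self]
    · rw [dif_neg h2, dif_neg h2]
  · rw [if_neg h1]
    unfold arrA
    by_cases h2 : l.val / u < k ∧ 0 < u
    · rw [dif_pos h2, dif_pos h2]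
      have h3 : (⟨l.val / u, h2.1⟩ : Fin k) ≠ i := fun h4 => h1 (congrArg Fin.val h4)
      rw [Function.update_of_ne h3]
    · rw [dif_neg h2, dif_neg h2]

lemma arrB_update (h : 2 * u * k * k ≤ n ^ 2) (X X' : Fin k → Finset (Fin u)) (i : Fin k) :
    arrB n h (Function.update X i (X' i)) = patch u (arrB n h X) (arrB n h X') i := by
  funext l
  unfold patch
  by_cases h1 : l.val / u = i.val
  · rw [if_pos h1]
    unfold arrB
    by_cases h2 : l.val / u < k ∧ 0 < u
    · rw [dif_pos h2, dif_pos h2]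
      have h3 : (⟨l.val / u, h2.1⟩ : Fin k) = i := Fin.ext h1
      rw [h3, Function.update_self]
    · rw [dif_neg h2, dif_neg h2]
  · rw [if_neg h1]
    unfold arrB
    by_cases h2 : l.val / u < k ∧ 0 < u
    · rw [dif_pos h2, dif_pos h2]
      have h3 : (⟨l.val / u, h2.1⟩ : Fin k) ≠ i := fun h4 => h1 (congrArg Fin.val h4)
      rw [Function.update_of_ne h3]
    · rw [dif_neg h2, dif_neg h2]

lemma depth_of {d s : ℕ} (h : 2 * u * k * k ≤ n ^ 2) (hk : 0 < k) {f : Arr n → Arr n → Bool}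
    (hf : BoundedDepth d s f) :
    SI.BoundedDepth d s (fun (X Y : Fin k → Finset (Fin u)) => f (arrA n h X) (arrB n h Y)) := by
  obtain ⟨J, C, l, g, h1, h2, h3⟩ := hf
  refine ⟨J, C, fun j => Sum.map (blk hk u) (blk hk u) (l j),
    fun j Z => g j (Sum.elim (arrA n h (fun _ => Z)) (arrB n h (fun _ => Z)) (l j)), h1, h2, ?_⟩
  intro X Y
  beta_reduce
  rw [h3]
  congr 1
  funext j
  cases hl : l j with
  | inl a =>
    simp only [Sum.elim_inl, Sum.map_inl]
    rw [arrA_blk]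
  | inr a =>
    simp only [Sum.elim_inr, Sum.map_inr]
    rw [arrB_blk]

/-- **Main theorem.** -/
theorem main (n w T : ℕ) (hw : 1 ≤ w) (hT : 1 ≤ T) (hn : 2 * 10 ^ 6 * (w * T) ^ 2 ≤ n) :
    ∃ k u : ℕ, k * u ≤ n ∧ n ≤ 2 * (k * u) ∧ u ≤ 2 * 10 ^ 6 * (w * T) ^ 2 ∧
      ∀ (S : ℕ) (Ω : Type) [Fintype Ω] (p : Ω → ℝ) (D : Ω → DS n w S), Solves p D T →
      (∀ R : ℝ, (∀ A B A' B' : Arr n,
          ∑ ω, p ω * ∑ c, (((D ω).sensitive k u A B A' B' c).card : ℝ) ≤ R) →
        (n : ℝ) ^ 2 ≤ 10 ^ 17 * ((w : ℝ) * T) ^ 4 * R) ∧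
      (∀ d κ s : ℕ, n ≤ 2 ^ κ → (∀ ω, (D ω).joint.card ≤ s) →
        (∀ ω, (D ω).JointBoundedDepth d (2 ^ κ)) →
        (n : ℝ) ^ 2 ≤ 10 ^ 17 * ((w : ℝ) * T) ^ 4 *
          (s * ((w : ℝ) ^ 2 * (72 * κ + 24 * d + 24 : ℝ) ^ (2 * d + 2)))) := by
  classical
  have hwT : 1 ≤ w * T := Nat.mul_pos hw hT
  obtain ⟨m, hm⟩ : ∃ m, m = 100 * (2 * w * T + 12) := ⟨_, rfl⟩
  have hm2 : m ≤ 1400 * (w * T) := by
    rw [hm]
    have : 2 * w * T = 2 * (w * T) := by ring
    omega
  have hm0 : 1200 ≤ m := by omega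
  obtain ⟨u, hu⟩ : ∃ u, u = m ^ 2 := ⟨_, rfl⟩
  have hu2 : u ≤ 2 * 10 ^ 6 * (w * T) ^ 2 := by
    rw [hu]
    calc m ^ 2 ≤ (1400 * (w * T)) ^ 2 := Nat.pow_le_pow_left hm2 2
      _ = 1960000 * (w * T) ^ 2 := by ring
      _ ≤ _ := Nat.mul_le_mul_right _ (by norm_num)
  have hu0 : 2 ≤ u := by rw [hu]; nlinarith
  have hun : u ≤ n := hu2.trans hn
  obtain ⟨k, hk⟩ : ∃ k, k = n / u := ⟨_, rfl⟩
  have hk1 : 1 ≤ k := by rw [hk]; exact (Nat.one_le_div_iff (by omega)).2 hun
  have hku : k * u ≤ n := by rw [hk]; exact Nat.div_mul_le_self n u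
  have hnk : n ≤ 2 * (k * u) := by
    have h3 : n < u * (k + 1) := by rw [hk]; exact Nat.lt_mul_div_succ n (by omega)
    have h5 : u ≤ u * k := Nat.le_mul_of_pos_right _ hk1
    have h6 : u * (k + 1) = u * k + u := by ring
    have h7 : 2 * (k * u) = u * k + u * k := by ring
    omega
  have h : 2 * u * k * k ≤ n ^ 2 := by
    calc 2 * u * k * k ≤ u * u * k * k := by
          apply Nat.mul_le_mul_right
          apply Nat.mul_le_mul_right
          exact Nat.mul_le_mul_right _ hu0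
      _ = (k * u) ^ 2 := by ring
      _ ≤ n ^ 2 := Nat.pow_le_pow_left hku 2
  refine ⟨k, u, hku, hnk, hu2, ?_⟩
  intro S Ω _ p D hD
  obtain ⟨hp0, hp1, hgood⟩ := hD
  have hH := halves (T := T) (k := k) (N := 4000 * (k * m)) hm.symm.le hu le_rfl p hp0 hp1
    (fun ω c X Y => (D ω).cell c (arrA n h X) (arrB n h Y)) false
    (fun ω i j => (D ω).query (zq u i j)) (by
      intro X Y _ i j
      refine (hgood (arrA n h X) (arrB n h Y) (zq u i j)).trans ?_
      apply Finset.sum_le_sum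
      intro ω _
      split_ifs with h2 h3
      · exact le_rfl
      · exfalso
        apply h3
        obtain ⟨h4, h5⟩ := h2
        refine ⟨?_, h5⟩
        rw [sum_query (by omega) hku h X Y i j] at h4
        constructor
        · intro h6
          by_contra h7
          exact absurd ((h4.2 h7).symm.trans h6) (by simp)
        · intro h6
          by_contra h7
          rw [Bool.not_eq_false] at h7
          exact h4.1 h7 h6
      · exact hp0 ω
      · exact le_rfl)
  have num : ∀ R : ℝ, (k : ℝ) ^ 2 ≤ 1700 * R →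
      (n : ℝ) ^ 2 ≤ 10 ^ 17 * ((w : ℝ) * T) ^ 4 * R := by
    intro R hR
    have h1 : (n : ℝ) ≤ 2 * (k * u) := by exact_mod_cast hnk
    have h2 : (u : ℝ) ≤ 2 * 10 ^ 6 * ((w : ℝ) * T) ^ 2 := by exact_mod_cast hu2
    have hR0 : 0 ≤ R := by
      have : (0 : ℝ) ≤ (k : ℝ) ^ 2 := by positivity
      linarith
    have h3 : (n : ℝ) ^ 2 ≤ (2 * (k * u)) ^ 2 := pow_le_pow_left₀ (Nat.cast_nonneg n) h1 2
    have h4 : (u : ℝ) ^ 2 ≤ (2 * 10 ^ 6 * ((w : ℝ) * T) ^ 2) ^ 2 :=
      pow_le_pow_left₀ (Nat.cast_nonneg u) h2 2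
    calc (n : ℝ) ^ 2 ≤ (2 * (k * u)) ^ 2 := h3
      _ = 4 * (u : ℝ) ^ 2 * (k : ℝ) ^ 2 := by ring
      _ ≤ 4 * (2 * 10 ^ 6 * ((w : ℝ) * T) ^ 2) ^ 2 * (1700 * R) := by
          apply mul_le_mul _ hR (by positivity) (by positivity)
          linarith
      _ = 27200000000000000 * (((w : ℝ) * T) ^ 4 * R) := by ring
      _ ≤ 10 ^ 17 * (((w : ℝ) * T) ^ 4 * R) := by
          apply mul_le_mul_of_nonneg_right (by norm_num)
          positivity
      _ = _ := by ring
  constructor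
  · intro R hR
    apply num
    apply hH.1 R
    intro X Y X' Y' _
    refine le_trans ?_ (hR (arrA n h X) (arrB n h Y) (arrA n h X') (arrB n h Y'))
    apply Finset.sum_le_sum
    intro ω _
    apply mul_le_mul_of_nonneg_left _ (hp0 ω)
    apply Finset.sum_le_sum
    intro c _
    have h1 : ((Finset.univ : Finset (Fin k × Fin k)).filter fun e =>
        c ∈ cells ((D ω).query (zq u e.1 e.2)) ∧
          BH (fun X Y => (D ω).cell c (arrA n h X) (arrB n h Y)) e.1 e.2 X Y X' Y') ⊆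
        (D ω).sensitive k u (arrA n h X) (arrB n h Y) (arrA n h X') (arrB n h Y') c := by
      intro e he
      rw [Finset.mem_filter] at he
      unfold DS.sensitive
      rw [Finset.mem_filter]
      refine ⟨Finset.mem_univ _, ?_⟩
      rw [← arrA_update, ← arrB_update]
      exact he.2.2
    exact_mod_cast Finset.card_le_card h1
  · intro d κ s hκ hs hdep
    apply num
    apply hH.2 d κ s _ (fun ω => (D ω).joint) hs
    · intro ω i j c _ hcJ
      by_contra hcon
      rw [not_or] at hcon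
      obtain ⟨h1, h2⟩ := hcon
      apply hcJ
      unfold DS.joint
      rw [Finset.mem_filter]
      refine ⟨Finset.mem_univ _, ?_, ?_⟩
      · by_contra h3
        apply h1
        intro X Y Z
        by_contra h4
        exact h3 ⟨_, _, _, h4⟩
      · by_contra h3
        apply h2
        intro X Y Z
        by_contra h4
        exact h3 ⟨_, _, _, h4⟩
    · intro ω c hc l hl
      exact depth_of h hk1 (hdep ω c hc l hl)
    · have h1 : k + k ≤ k * u := by nlinarith
      omega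

end Pool.Agent.H284.PS.TS
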