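import Pool.Agent.Run7.h284.PS.Avg

/-!
# Cells of several bits
-/

set_option autoImplicit false

namespace Pool.Agent.H284.PS

open Finset DomAC0 H568R2
open Pool.Agent.W959 Pool.Agent.W959.Ent Pool.Agent.TH457.EntD

lemma word_eq {w : ℕ} (a b : Fin (2 ^ w))
    (h : ∀ l < w, a.val.testBit l = b.val.testBit l) : a = b := by
  apply Fin.ext
  apply Nat.eq_of_testBit_eq
  intro l
  by_cases hl : l < w
  · exact h l hl
  · have h1 : a.val < 2 ^ l := lt_of_lt_of_le a.2 (Nat.pow_le_pow_right (by norm_num) (by omega))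
    have h2 : b.val < 2 ^ l := lt_of_lt_of_le b.2 (Nat.pow_le_pow_right (by norm_num) (by omega))
    rw [Nat.testBit_eq_false_of_lt h1, Nat.testBit_eq_false_of_lt h2]

variable {I : Type} [Fintype I] [DecidableEq I] {A : Type} [Fintype A]

omit [Fintype A] in
lemma mem_sset {V : Type} {Φ : (I → A) → V} {F F' : I → A} {i : I} :
    i ∈ sset Φ F F' ↔ Φ (Function.update F i (F' i)) ≠ Φ F := by
  simp [sset]

/-- the second moment of the number of sets to which a cell is sensitive -/
theorem word_moment {μ : A → ℝ} (h0 : ∀ a, 0 ≤ μ a) (h1 : ∑ a, μ a = 1) {d κ w : ℕ}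
    (hI : Fintype.card I ≤ 2 ^ κ) {Φ : (I → A) → Fin (2 ^ w)}
    (hΦ : ∀ l < w, Computed d (2 ^ κ) (fun F => (Φ F).val.testBit l)) :
    E2 μ (fun F F' => ((sset Φ F F').card : ℝ) ^ 2) ≤
      (w : ℝ) ^ 2 * (72 * κ + 24 * d + 24 : ℝ) ^ (2 * d + 2) := by
  classical
  have hpt : ∀ F F' : I → A, ((sset Φ F F').card : ℝ) ^ 2 ≤
      (w : ℝ) * ∑ l ∈ Finset.range w,
        ((sset (fun F => (Φ F).val.testBit l) F F').card : ℝ) ^ 2 := by
    intro F F'
    have h2 : sset Φ F F' ⊆ (Finset.range w).biUnion fun l =>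
        sset (fun F => (Φ F).val.testBit l) F F' := by
      intro i hi
      rw [mem_sset] at hi
      by_contra hcon
      apply hi
      apply word_eq
      intro l hl
      by_contra hne
      apply hcon
      rw [Finset.mem_biUnion]
      refine ⟨l, Finset.mem_range.2 hl, ?_⟩
      rw [mem_sset]
      exact hne
    have h3 : ((sset Φ F F').card : ℝ) ≤
        ∑ l ∈ Finset.range w, ((sset (fun F => (Φ F).val.testBit l) F F').card : ℝ) := by
      exact_mod_cast (Finset.card_le_card h2).trans Finset.card_biUnion_le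
    have h4 := pow_le_pow_left₀ (Nat.cast_nonneg _) h3 2
    refine h4.trans ?_
    have h5 := sq_sum_le_card_mul_sum_sq (s := Finset.range w)
      (f := fun l => ((sset (fun F => (Φ F).val.testBit l) F F').card : ℝ))
    rw [Finset.card_range] at h5
    exact h5
  refine (E2_mono h0 hpt).trans ?_
  rw [E2_smul, E2_sum]
  have h2 : ∑ l ∈ Finset.range w, E2 μ (fun F F' : I → A =>
      ((sset (fun F => (Φ F).val.testBit l) F F').card : ℝ) ^ 2) ≤
      ∑ _l ∈ Finset.range w, (72 * κ + 24 * d + 24 : ℝ) ^ (2 * d + 2) := by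
    apply Finset.sum_le_sum
    intro l hl
    exact bit_moment h0 h1 hI (hΦ l (Finset.mem_range.1 hl))
  rw [Finset.sum_const, Finset.card_range, nsmul_eq_mul] at h2
  have h3 := mul_le_mul_of_nonneg_left h2 (Nat.cast_nonneg (α := ℝ) w)
  refine h3.trans (le_of_eq ?_)
  ring

omit [Fintype A] in
/-- the number of pairs to which a cell is sensitive -/
lemma sum_BS_le {K : ℕ} {V : Type} (Φ : (Fin K → A) → V) (E : Finset (Fin K × Fin K))
    (F F' : Fin K → A) :
    ∑ e ∈ E, ind (BS Φ e.1 e.2 F F') ≤ ((sset Φ F F').card : ℝ) ^ 2 := by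
  classical
  have h1 : ∀ e : Fin K × Fin K, ind (BS Φ e.1 e.2 F F') =
      if e ∈ sset Φ F F' ×ˢ sset Φ F F' then (1 : ℝ) else 0 := by
    intro e
    have h2 : e ∈ sset Φ F F' ×ˢ sset Φ F F' ↔ BS Φ e.1 e.2 F F' := by
      rw [Finset.mem_product, mem_sset, mem_sset]
      rfl
    by_cases h : BS Φ e.1 e.2 F F'
    · rw [ind_true h, if_pos (h2.2 h)]
    · rw [ind_false h, if_neg fun h3 => h (h2.1 h3)]
  simp only [h1]
  calc _ ≤ ∑ e : Fin K × Fin K, (if e ∈ sset Φ F F' ×ˢ sset Φ F F' then (1 : ℝ) else 0) := by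
        apply Finset.sum_le_univ_sum_of_nonneg
        intro e
        split_ifs <;> norm_num
    _ = _ := by
        rw [Finset.sum_ite_mem, Finset.univ_inter, Finset.sum_const, Finset.card_product,
          nsmul_eq_mul]
        push_cast
        ring

end Pool.Agent.H284.PS
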